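import Mathlib

/-!
Definitions used in the statement for MP_bf30c2_ag.
The variety `X` is the affine space with coordinates indexed by `σ`, the point `x` is its origin.
-/

namespace Pool.Agent.Lib.MP_bf30c2_ag

open AlgebraicGeometry CategoryTheory WithZero

/-- the coordinate ring of `X` -/
abbrev CoordRing (σ : Type) : Type := MvPolynomial σ ℂ

/-- the function field of `X` -/
abbrev FunField (σ : Type) : Type := FractionRing (MvPolynomial σ ℂ)

variable {σ : Type}

/-- `v = exp (- ord_E)` for a prime divisor `E` on a normal affine variety `Spec B` which is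
birational over `X`. -/
def IsPrimeDivisor (v : Valuation (FunField σ) ℤᵐ⁰) : Prop :=
  Function.Surjective v ∧ ∃ B : Subalgebra ℂ (FunField σ), B.FG ∧ IsIntegrallyClosed B ∧
    (∀ a : CoordRing σ, algebraMap (CoordRing σ) (FunField σ) a ∈ B) ∧
    ∃ q : Ideal B, q.IsPrime ∧ q.height = 1 ∧
      ∀ g : FunField σ, v g ≤ 1 ↔ ∃ a b : B, b ∉ q ∧ g = a / b

/-- the centre of `v` on `X` is the origin -/
def CentredAtOrigin (v : Valuation (FunField σ) ℤᵐ⁰) : Prop :=
  ∀ a : CoordRing σ, v (algebraMap (CoordRing σ) (FunField σ) a) < 1 ↔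
    MvPolynomial.constantCoeff a = 0

/-- the rational function `dg_1 ∧ ... ∧ dg_n / dx_1 ∧ ... ∧ dx_n` -/
noncomputable def jacobian [Fintype σ] [DecidableEq σ] (g : σ → FunField σ) : FunField σ :=
  ((KaehlerDifferential.mvPolynomialBasis ℂ σ).ofIsLocalizedModule (FunField σ)
    (nonZeroDivisors (CoordRing σ))
    (KaehlerDifferential.map ℂ ℂ (CoordRing σ) (FunField σ))).det
    fun j => KaehlerDifferential.D ℂ (FunField σ) (g j)

/-- the order of vanishing of the form `dx_1 ∧ ... ∧ dx_n` along the divisor, that is the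
multiplicity of the divisor in `K_Y - f^* K_X` -/
noncomputable def discrepancy [Fintype σ] [DecidableEq σ] (v : Valuation (FunField σ) ℤᵐ⁰) : ℤ :=
  sSup {k : ℤ | ∃ g : σ → FunField σ, (∀ j, v (g j) ≤ 1) ∧ v (jacobian g) = exp k}

/-- the log discrepancy `a(E, X, B)` for `B = ∑ c_i div(h_i)` -/
noncomputable def logDiscrepancy [Fintype σ] [DecidableEq σ] {ι : Type} [Fintype ι] (c : ι → ℝ)
    (h : ι → CoordRing σ) (v : Valuation (FunField σ) ℤᵐ⁰) : ℝ :=
  1 + discrepancy v - ∑ i, c i * (-log (v (algebraMap (CoordRing σ) (FunField σ) (h i))) : ℤ)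

/-- the local ring of `Y` at `y` inside the function field -/
def localRingAt (Y : Scheme.{0}) [IsIntegral Y] (e : Y.functionField ≃+* FunField σ) (y : Y) :
    Set (FunField σ) :=
  Set.range fun s : Y.presheaf.stalk y => e (algebraMap (Y.presheaf.stalk y) Y.functionField s)

/-- the stalk at `y` of `O_Y(-mE)`, where `E` is the closure of `η` and `v = exp (- ord_E)` -/
def idealAt (Y : Scheme.{0}) [IsIntegral Y] (e : Y.functionField ≃+* FunField σ) (η : Y)
    (v : Valuation (FunField σ) ℤᵐ⁰) (m : ℕ) (y : Y) : Set (FunField σ) :=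
  {g ∈ localRingAt Y e y | η ⤳ y → v g ≤ exp (-(m : ℤ))}

/-- There is a proper birational morphism `f : Y ⟶ X` from a normal integral scheme whose
exceptional locus is a prime divisor `E` with valuation `v`, such that `lE` is Cartier and
`O_Y(-lE)` is ample for some `l > 0`. -/
def HasDivisorialContraction (v : Valuation (FunField σ) ℤᵐ⁰) : Prop :=
  ∃ (Y : Scheme.{0}) (_ : IsIntegral Y) (f : Y ⟶ Spec (CommRingCat.of (CoordRing σ)))
    (e : Y.functionField ≃+* FunField σ) (η : Y) (l : ℕ),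
    IsProper f ∧
    Spec.map (CommRingCat.ofHom e.toRingHom) ≫ Y.fromSpecStalk (genericPoint Y) ≫ f =
      Spec.map (CommRingCat.ofHom (algebraMap (CoordRing σ) (FunField σ))) ∧
    (∀ y : Y, IsIntegrallyClosed (Y.presheaf.stalk y)) ∧
    localRingAt Y e η = {g | v g ≤ 1} ∧
    (∀ y : Y, ¬ IsIso (f.stalkMap y) ↔ η ⤳ y) ∧
    0 < l ∧
    (∀ y : Y, ∃ t, idealAt Y e η v l y = (fun u => t * u) '' localRingAt Y e y) ∧
    ∀ y : Y, ∃ k : ℕ, 0 < k ∧ ∃ s, (∀ z : Y, s ∈ idealAt Y e η v (k * l) z) ∧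
      ∃ U : Y.Opens, IsAffineOpen U ∧ y ∈ U ∧
        ∀ z : Y, z ∈ U ↔ idealAt Y e η v (k * l) z = (fun u => s * u) '' localRingAt Y e z

end Pool.Agent.Lib.MP_bf30c2_ag
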