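import Mathlib
import Pool.Agent.Lib.MP_bf30c2_ag.Defs
import Pool.Agent.Lib.MP_20b407_ag.Val

/-! Jacobians and their orders along divisorial valuations. -/

set_option linter.unusedSectionVars false

namespace Pool.Agent.Lib.MP_bf30c2_ag

open WithZero Pool.Agent.Lib.MP_20b407_ag Module MvPolynomial Finset

variable {σ : Type}

/-- the inclusion of the coordinate ring -/
noncomputable abbrev al : CoordRing σ →+* FunField σ := algebraMap (CoordRing σ) (FunField σ)

theorem al_inj : Function.Injective (al (σ := σ)) := IsFractionRing.injective _ _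

theorem al_C (c : ℂ) : al (C c : CoordRing σ) = algebraMap ℂ (FunField σ) c :=
  (IsScalarTower.algebraMap_apply ℂ (CoordRing σ) (FunField σ) c).symm

theorem al_ne {a : CoordRing σ} (h : a ≠ 0) : al a ≠ 0 := fun h0 => h (al_inj (by rw [h0, map_zero]))

theorem X_pow_dvd_iff (o : σ) (n : ℕ) (P : CoordRing σ) :
    X o ^ n ∣ P ↔ ∀ m : σ →₀ ℕ, m o < n → coeff m P = 0 := by
  rw [X_pow_eq_monomial, monomial_one_dvd_iff_modMonomial_eq_zero]
  constructor
  · intro h m hm
    rw [← coeff_modMonomial_of_not_le (s := Finsupp.single o n) P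
      (by rw [Finsupp.single_le_iff]; omega), h, coeff_zero]
  · intro h
    ext m
    by_cases hm : Finsupp.single o n ≤ m
    · rw [coeff_modMonomial_of_le P hm, coeff_zero]
    · rw [coeff_modMonomial_of_not_le P hm, coeff_zero]
      exact h m (by rw [Finsupp.single_le_iff] at hm; omega)

section val

variable {K : Type*} [Field K] {v : Valuation K ℤᵐ⁰}

theorem VEq_zpow {n : ℤ} {a : K} (ha : VEq v n a) (k : ℤ) : VEq v (k * n) (a ^ k) := by
  unfold VEq at *
  rw [map_zpow₀, ha, ← exp_zsmul]
  congr 1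
  simp

theorem exists_bound (v : Valuation K ℤᵐ⁰) (s : Finset K) : ∃ C : ℕ, ∀ g ∈ s, VGe v (-C) g := by
  classical
  induction s using Finset.induction_on with
  | empty => exact ⟨0, by simp⟩
  | insert a s _ ih =>
    obtain ⟨C, hC⟩ := ih
    by_cases ha : a = 0
    · refine ⟨C, fun g hg => ?_⟩
      rcases mem_insert.mp hg with rfl | hg
      · rw [ha]; exact VGe.zero _
      · exact hC g hg
    obtain ⟨n, hn⟩ := exists_VEq (v := v) ha
    refine ⟨C + n.natAbs, fun g hg => ?_⟩
    rcases mem_insert.mp hg with rfl | hg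
    · exact hn.ge.mono (by omega)
    · exact (hC g hg).mono (by omega)

theorem VGe_det {ι : Type*} [Fintype ι] [DecidableEq ι] {M : Matrix ι ι K} {n : ℤ}
    (h : ∀ i j, VGe v n (M i j)) : VGe v (Fintype.card ι * n) M.det := by
  rw [Matrix.det_apply']
  refine VGe.sum fun s _ => ?_
  have h1 : VGe v 0 (((Equiv.Perm.sign s : ℤ) : K)) := intCast_mem (vring v) _
  exact h1.mul' (VGe.prod fun i _ => h (s i) i) (by simp)

theorem VEq_of_unit {a : K} (h0 : a ≠ 0) (h : VGe v 0 a) (h' : VGe v 0 a⁻¹) : VEq v 0 a := by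
  obtain ⟨n, hn⟩ := exists_VEq (v := v) h0
  have h1 := hn.le h
  have h2 := hn.inv.le h'
  exact hn.congr (by omega)

theorem VEq_of_not {n : ℤ} {a : K} (h : VGe v n a) (h' : ¬ VGe v (n + 1) a) : VEq v n a := by
  have h0 : a ≠ 0 := by rintro rfl; exact h' (VGe.zero _)
  obtain ⟨m, hm⟩ := exists_VEq (v := v) h0
  have h1 := hm.le h
  have h2 : ¬ n + 1 ≤ m := fun h2 => h' (hm.ge.mono h2)
  exact hm.congr (by omega)

theorem lt_one_iff {a : K} : v a < 1 ↔ VGe v 1 a := by
  by_cases h0 : a = 0
  · subst h0; simp [VGe]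
  obtain ⟨n, hn⟩ := exists_VEq (v := v) h0
  unfold VEq at hn
  rw [VGe, hn, ← exp_zero, exp_lt_exp, exp_le_exp]
  omega

theorem VEq_log {n : ℤ} {a : K} (h : VEq v n a) : -log (v a) = n := by
  unfold VEq at h
  rw [h, log_exp, neg_neg]

end val

variable [Fintype σ] [DecidableEq σ]

/-- the basis `dx_i` -/
noncomputable def bs (σ : Type) : Basis σ (FunField σ) Ω[FunField σ⁄ℂ] :=
  (KaehlerDifferential.mvPolynomialBasis ℂ σ).ofIsLocalizedModule (FunField σ)
    (nonZeroDivisors (CoordRing σ)) (KaehlerDifferential.map ℂ ℂ (CoordRing σ) (FunField σ))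

/-- universal derivation -/
noncomputable abbrev dK : Derivation ℂ (FunField σ) Ω[FunField σ⁄ℂ] :=
  KaehlerDifferential.D ℂ (FunField σ)

theorem jac_def (g : σ → FunField σ) : jacobian g = (bs σ).det fun j => dK (g j) := rfl

/-- partial derivatives -/
noncomputable def pd (i : σ) : Derivation ℂ (FunField σ) (FunField σ) :=
  ((bs σ).coord i).compDer dK

theorem pd_apply (i : σ) (g : FunField σ) : pd i g = (bs σ).repr (dK g) i := rfl

theorem pd_al (i : σ) (P : CoordRing σ) : pd i (al P) = al (pderiv i P) := by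
  rw [pd_apply, ← KaehlerDifferential.map_D ℂ ℂ (CoordRing σ), bs,
    Basis.ofIsLocalizedModule_repr_apply, KaehlerDifferential.mvPolynomialBasis_repr_apply]

theorem pd_X (i j : σ) : pd i (al (X j)) = if j = i then 1 else 0 := by
  rw [pd_al, pderiv_X, Pi.single_apply]
  split_ifs <;> simp

theorem jac_eq (g : σ → FunField σ) : jacobian g = (Matrix.of fun j i => pd i (g j)).det := by
  rw [jac_def, Basis.det_apply, ← Matrix.det_transpose]
  rfl

theorem jac_X : jacobian (fun j : σ => al (X j)) = 1 := by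
  rw [jac_eq, ← Matrix.det_one (n := σ)]
  congr 1
  ext j i
  simp [pd_X, Matrix.one_apply]

theorem dK_aeval (y : σ → FunField σ) (P : CoordRing σ) :
    dK (aeval y P) = ∑ i, aeval y (pderiv i P) • dK (y i) := by
  induction P using MvPolynomial.induction_on with
  | C a => simp
  | add p q hp hq => simp only [map_add, hp, hq, add_smul, sum_add_distrib]
  | mul_X p j hp =>
    simp only [map_mul, aeval_X, Derivation.leibniz, hp, pderiv_X, smul_eq_mul, map_add, add_smul,
      sum_add_distrib, smul_sum, mul_smul]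
    congr 1
    rw [sum_eq_single j] <;> simp +contextual [Pi.single_apply, eq_comm]

theorem jac_update (y : σ → FunField σ) (j : σ) (r : FunField σ) :
    jacobian (Function.update y j r) =
      (bs σ).det (Function.update (fun i => dK (y i)) j (dK r)) := by
  rw [jac_def]
  congr 1
  funext i
  by_cases h : i = j
  · subst h; simp
  · simp [h]

theorem jac_update_aeval (y : σ → FunField σ) (j : σ) (P : CoordRing σ) :
    jacobian (Function.update y j (aeval y P)) = aeval y (pderiv j P) * jacobian y := by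
  rw [jac_update, dK_aeval, AlternatingMap.map_update_sum, sum_eq_single j]
  · rw [AlternatingMap.map_update_smul, Function.update_eq_self, smul_eq_mul, jac_def]
  · intro i _ hi
    rw [AlternatingMap.map_update_smul,
      AlternatingMap.map_update_self _ (fun i => dK (y i)) hi.symm, smul_zero]
  · simp

theorem jac_update_mul (y : σ → FunField σ) {j o : σ} (h : j ≠ o) (r : FunField σ) :
    jacobian (Function.update y j (y o * r)) = y o * jacobian (Function.update y j r) := by
  rw [jac_update, jac_update, Derivation.leibniz, AlternatingMap.map_update_add,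
    AlternatingMap.map_update_smul, AlternatingMap.map_update_smul,
    AlternatingMap.map_update_self _ (fun i => dK (y i)) h, smul_zero, add_zero, smul_eq_mul]

theorem jac_scale (y : σ → FunField σ) (o : σ) (e : σ → ℕ) (he : e o = 0) :
    jacobian (fun j => y o ^ e j * y j) = y o ^ (∑ j, e j) * jacobian y := by
  rw [jac_eq, jac_eq, ← prod_pow_eq_pow_sum, ← Matrix.det_mul_column]
  refine Matrix.det_eq_of_forall_row_eq_smul_add_const
    (fun j => e j * y o ^ (e j - 1) * y j) o (by simp [he]) fun j i => ?_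
  simp only [Matrix.of_apply, Derivation.leibniz, Derivation.leibniz_pow, he, smul_eq_mul,
    nsmul_eq_mul]
  ring

/-- the properties of a divisorial valuation which are used -/
structure Good (v : Valuation (FunField σ) ℤᵐ⁰) (k : ℤ) : Prop where
  alg : ∀ a, VGe v 0 (al a)
  unif : ∃ π, VEq v 1 π
  jac : ∀ g : σ → FunField σ, (∀ j, VGe v 0 (g j)) → VGe v (-k) (jacobian g)

section good

variable {v : Valuation (FunField σ) ℤᵐ⁰}

theorem const_ge (hA : ∀ a, VGe v 0 (al a)) (c : ℂ) : VGe v 0 (algebraMap ℂ (FunField σ) c) :=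
  al_C (σ := σ) c ▸ hA _

theorem const_eq (hA : ∀ a, VGe v 0 (al a)) {c : ℂ} (hc : c ≠ 0) :
    VEq v 0 (algebraMap ℂ (FunField σ) c) :=
  VEq_of_unit (by simpa using hc) (const_ge hA c) (by rw [← map_inv₀]; exact const_ge hA _)

theorem nat_eq (hA : ∀ a, VGe v 0 (al a)) {n : ℕ} (hn : n ≠ 0) : VEq v 0 (n : FunField σ) := by
  simpa using const_eq hA (c := n) (by exact_mod_cast hn)

/-- functions with bounded derivatives -/
noncomputable def bdd (hA : ∀ a, VGe v 0 (al a)) (C : ℤ) : Subalgebra ℂ (FunField σ) where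
  carrier := {g | VGe v 0 g ∧ ∀ i, VGe v C (pd i g)}
  mul_mem' := by
    rintro a b ⟨ha, ha'⟩ ⟨hb, hb'⟩
    refine ⟨ha.mul' hb (by simp), fun i => ?_⟩
    rw [Derivation.leibniz, smul_eq_mul, smul_eq_mul]
    exact (ha.mul' (hb' i) (by simp)).add (hb.mul' (ha' i) (by simp))
  add_mem' := by
    rintro a b ⟨ha, ha'⟩ ⟨hb, hb'⟩
    exact ⟨ha.add hb, fun i => by rw [map_add]; exact (ha' i).add (hb' i)⟩
  algebraMap_mem' c := ⟨const_ge hA c, fun i => by
    rw [Derivation.map_algebraMap]; exact VGe.zero _⟩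

theorem IsPrimeDivisor.alg (h : IsPrimeDivisor v) (a : CoordRing σ) : VGe v 0 (al a) := by
  obtain ⟨-, B, -, -, hB, q, hq, -, H⟩ := h
  exact (H _).mpr ⟨⟨_, hB a⟩, 1, (Ideal.ne_top_iff_one q).mp hq.ne_top, by simp⟩

theorem IsPrimeDivisor.bound (h : IsPrimeDivisor v) :
    ∃ C : ℤ, ∀ g : σ → FunField σ, (∀ j, VGe v 0 (g j)) → VGe v C (jacobian g) := by
  classical
  have hA := h.alg
  obtain ⟨-, B, ⟨s, hs⟩, -, -, q, hq, -, H⟩ := h
  have h1 : (1 : B) ∉ q := (Ideal.ne_top_iff_one q).mp hq.ne_top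
  have hB : ∀ b : B, VGe v 0 (b : FunField σ) := fun b => (H _).mpr ⟨b, 1, h1, by simp⟩
  obtain ⟨C, hC⟩ := exists_bound v ((s ×ˢ univ).image fun p : FunField σ × σ => pd p.2 p.1)
  have hle : B ≤ bdd hA (-C) := by
    rw [← hs]
    refine Algebra.adjoin_le fun g hg => ⟨hB ⟨g, hs ▸ Algebra.subset_adjoin hg⟩, fun i => ?_⟩
    exact hC _ (mem_image.mpr ⟨(g, i), by simpa using hg, rfl⟩)
  refine ⟨Fintype.card σ * (-C), fun g hg => ?_⟩
  rw [jac_eq]
  refine VGe_det fun j i => ?_
  obtain ⟨a, b, hb, hab⟩ := (H _).mp (hg j)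
  have hbi : VGe v 0 (b : FunField σ)⁻¹ := (H _).mpr ⟨1, b, hb, by simp⟩
  have : (b : FunField σ)⁻¹ ∈ bdd hA (-C) := ⟨hbi, fun i => by
    rw [Derivation.leibniz_inv, smul_eq_mul]
    exact (hbi.pow 2).neg.mul' ((hle b.2).2 i) (by simp)⟩
  rw [Matrix.of_apply, hab, div_eq_mul_inv]
  exact (mul_mem (hle a.2) this).2 i

theorem IsPrimeDivisor.good (h : IsPrimeDivisor v) : Good v (discrepancy v) := by
  obtain ⟨C, hC⟩ := h.bound
  refine ⟨h.alg, h.1 _, fun g hg => ?_⟩
  by_cases h0 : jacobian g = 0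
  · rw [h0]; exact VGe.zero _
  obtain ⟨n, hn⟩ := exists_VEq (v := v) h0
  have : -n ≤ discrepancy v := by
    refine le_csSup ⟨-C, ?_⟩ ⟨g, hg, hn⟩
    rintro k ⟨g, hg, hk⟩
    have : VEq v (-k) (jacobian g) := by rw [VEq, neg_neg]; exact hk
    have := this.le (hC g hg)
    omega
  exact hn.ge.mono (by omega)

theorem discrepancy_le {k : ℤ} (h : Good v k) : discrepancy v ≤ k := by
  refine csSup_le ⟨0, fun j => al (X j), fun j => h.alg _, by rw [jac_X]; simp⟩ ?_
  rintro n ⟨g, hg, hn⟩
  have : VEq v (-n) (jacobian g) := by rw [VEq, neg_neg]; exact hn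
  have := this.le (h.jac g hg)
  omega

variable {k : ℤ}

theorem Good.nonneg (h : Good v k) : 0 ≤ k := by
  have := VEq.one.le (jac_X (σ := σ) ▸ h.jac _ fun j => h.alg (X j))
  omega

theorem Good.log_bound (h : Good v k) {y : σ → FunField σ} {a : σ → ℤ}
    (hy : ∀ j, VEq v (a j) (y j)) : VGe v (∑ j, a j - 1 - k) (jacobian y) := by
  obtain ⟨π, hπ⟩ := h.unif
  have hπ0 := hπ.ne_zero
  let u : σ → FunField σ := fun j => y j * π ^ (-a j)
  have hu : ∀ j, VEq v 0 (u j) := fun j => ((hy j).mul (VEq_zpow hπ _)).congr (by ring)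
  have hd : ∀ j, dK (y j) = y j • (((a j : FunField σ) * π⁻¹) • dK π + (u j)⁻¹ • dK (u j)) := by
    intro j
    have h0 := (hy j).ne_zero
    have h1 : π ^ (-a j) ≠ 0 := zpow_ne_zero _ hπ0
    simp only [u]
    rw [Derivation.leibniz, Derivation.leibniz_zpow, zpow_sub_one₀ hπ0,
      ← Int.cast_smul_eq_zsmul (FunField σ)]
    simp only [smul_add, smul_smul]
    rw [← add_assoc, ← add_smul]
    have e1 : y j * (↑(a j) * π⁻¹) + y j * ((y j * π ^ (-a j))⁻¹ * (y j * (((-a j : ℤ) : FunField σ)
        * (π ^ (-a j) * π⁻¹)))) = 0 := by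
      push_cast
      field_simp
      ring
    have e2 : y j * ((y j * π ^ (-a j))⁻¹ * π ^ (-a j)) = 1 := by field_simp
    rw [e1, e2, zero_smul, zero_add, one_smul]
  rw [jac_def]
  simp only [hd]
  rw [AlternatingMap.map_smul_univ, smul_eq_mul]
  refine (VEq.prod fun j _ => hy j).ge.mul' (n := -1 - k) ?_ (by omega)
  have := (bs σ).det.map_add_univ (fun j => ((a j : FunField σ) * π⁻¹) • dK π)
    (fun j => (u j)⁻¹ • dK (u j))
  refine (congrArg (VGe v _) this).mpr (VGe.sum fun s _ => ?_)
  have e : s.piecewise (fun j => ((a j : FunField σ) * π⁻¹) • dK π) (fun j => (u j)⁻¹ • dK (u j)) =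
      fun j => (if j ∈ s then (a j : FunField σ) * π⁻¹ else (u j)⁻¹) •
        dK (if j ∈ s then π else u j) := by
    funext j
    by_cases hj : j ∈ s <;> simp [hj]
  rw [e, AlternatingMap.map_smul_univ, smul_eq_mul]
  by_cases hs : s.card ≤ 1
  · refine VGe.mul' (VGe.prod (n := fun j => if j ∈ s then -1 else 0) fun j _ => ?_)
      (h.jac (fun j => if j ∈ s then π else u j) fun j => ?_) ?_
    · split_ifs
      · exact VGe.mul' (intCast_mem (vring v) _) hπ.inv.ge (by simp)
      · exact (hu j).inv.ge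
    · split_ifs
      · exact hπ.ge.mono (by simp)
      · exact (hu j).ge
    · simp only [sum_ite_mem, univ_inter, sum_const, Int.nsmul_eq_mul]
      omega
  · obtain ⟨i, hi, j, hj, hij⟩ := one_lt_card.mp (not_le.mp hs)
    rw [AlternatingMap.map_eq_zero_of_eq _ _ (i := i) (j := j) (by simp [hi, hj]) hij, mul_zero]
    exact VGe.zero _

theorem aeval_ge (hA : ∀ a, VGe v 0 (al a)) {τ : Type*} {y : τ → FunField σ}
    (hy : ∀ j, VGe v 0 (y j)) (P : MvPolynomial τ ℂ) : VGe v 0 (aeval y P) := by
  induction P using MvPolynomial.induction_on with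
  | C a => simpa using const_ge hA a
  | add p q hp hq => rw [map_add]; exact hp.add hq
  | mul_X p j hp => rw [map_mul, aeval_X]; exact hp.mul' (hy j) (by simp)

theorem Good.indep (h : Good v k) {y : σ → FunField σ} {o : σ} (ho : VEq v 1 (y o))
    (hy : ∀ j, VGe v 0 (y j)) (hj : VEq v (-k) (jacobian y)) (n : ℕ) (P : CoordRing σ) :
    VGe v n (aeval y P) ↔ X o ^ n ∣ P := by
  have h1 : ∀ j ≠ o, ∀ P : CoordRing σ, VGe v 1 (aeval y P) → VGe v 1 (aeval y (pderiv j P)) := by
    intro j hjo P hP
    have e := jac_update_mul y hjo (aeval y P / y o)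
    rw [mul_div_cancel₀ _ ho.ne_zero, jac_update_aeval] at e
    have h2 : VGe v (1 + -k) (aeval y (pderiv j P) * jacobian y) := by
      rw [e]
      refine ho.ge.mul (h.jac _ fun i => ?_)
      by_cases hi : i = j
      · subst hi; simpa using hP.div ho
      · simpa [hi] using hy i
    exact (h2.of_mul hj).mono (by omega)
  have h2 : ∀ (d : ℕ) (P : CoordRing σ), VGe v 1 (aeval y P) →
      (∀ m, coeff m P ≠ 0 → m.degree < d) → ∀ m : σ →₀ ℕ, m o = 0 → coeff m P = 0 := by
    intro d
    induction d with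
    | zero => intro P _ hd m _; by_contra hm; simpa using hd m hm
    | succ d ih =>
      intro P hP hd
      have h3 : ∀ m : σ →₀ ℕ, m o = 0 → m ≠ 0 → coeff m P = 0 := by
        intro m hm hm0
        obtain ⟨j, hj⟩ : ∃ j, m j ≠ 0 := by
          by_contra! hc
          exact hm0 (Finsupp.ext hc)
        have hjo : j ≠ o := by rintro rfl; exact hj hm
        obtain ⟨m', rfl⟩ : ∃ m', m = m' + Finsupp.single j 1 :=
          ⟨m - Finsupp.single j 1, (tsub_add_cancel_of_le
            (by rw [Finsupp.single_le_iff]; omega)).symm⟩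
        have := ih _ (h1 j hjo P hP) (fun m hm => by
          rw [coeff_pderiv] at hm
          have := hd _ (left_ne_zero_of_mul hm)
          rw [map_add, Finsupp.degree_single] at this
          omega) m' (by simpa [hjo] using hm)
        rw [coeff_pderiv] at this
        exact (mul_eq_zero.mp this).resolve_right (Nat.cast_add_one_ne_zero _)
      intro m hm
      by_cases hm0 : m = 0
      · subst hm0
        by_contra hc
        obtain ⟨Q, hQ⟩ := (X_pow_dvd_iff o 1 (P - C (coeff 0 P))).mpr fun m hm => by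
          rw [coeff_sub, coeff_C]
          split_ifs with h0
          · rw [← h0, sub_self]
          · rw [h3 m (by omega) (Ne.symm h0), sub_zero]
        have h4 : algebraMap ℂ (FunField σ) (coeff 0 P) = aeval y P - y o * aeval y Q := by
          have := congrArg (aeval y) hQ
          simp only [map_sub, map_mul, aeval_X, pow_one, algHom_C] at this
          linear_combination -this
        have := (const_eq h.alg hc).le (h4 ▸ hP.sub (ho.ge.mul' (aeval_ge h.alg hy Q) (by simp)))
        omega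
      · exact h3 m hm hm0
  constructor
  · induction n generalizing P with
    | zero => simp
    | succ n ih =>
      intro hP
      obtain ⟨Q, rfl⟩ := (X_pow_dvd_iff o 1 P).mpr fun m hm =>
        h2 (P.totalDegree + 1) P (hP.mono (by omega)) (fun m hm => Nat.lt_succ_of_le
          (le_totalDegree (mem_support_iff.mpr hm))) m (by omega)
      rw [pow_one, pow_succ']
      refine mul_dvd_mul_left _ (ih Q ?_)
      rw [pow_one, map_mul, aeval_X, mul_comm] at hP
      exact (hP.of_mul ho).mono (by omega)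
  · rintro ⟨Q, rfl⟩
    rw [map_mul, map_pow, aeval_X]
    exact (ho.pow n).ge.mul' (aeval_ge h.alg hy Q) (by simp)

end good

end Pool.Agent.Lib.MP_bf30c2_ag
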