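import Mathlib
import Pool.Agent.Lib.MP_bf30c2_ag.Jac

/-! The ratio of the two valuations never reaches its supremum. -/

namespace Pool.Agent.Lib.MP_bf30c2_ag

open Finset

attribute [-simp] MvPolynomial.aeval_eq_bind₁ MvPolynomial.aeval_eq_eval

section uni

open Polynomial

theorem coprime_X : IsCoprime (X : ℂ[X]) (X - C 1) := ⟨1, -1, by simp⟩

theorem vanish_le {G : ℂ[X]} (hG : G ≠ 0) {t₀ t₁ r : ℕ}
    (h : ∀ t, G.coeff t ≠ 0 → t₀ ≤ t ∧ t ≤ t₁) (hd : (X - C 1) ^ r ∣ G) : t₀ + r ≤ t₁ := by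
  have h1 : X ^ t₀ ∣ G := Polynomial.X_pow_dvd_iff.mpr fun d hd => by
    by_contra hc
    have := h d hc
    omega
  have h2 := natDegree_le_of_dvd ((coprime_X.pow (m := t₀) (n := r)).mul_dvd h1 hd) hG
  rw [natDegree_mul (pow_ne_zero _ X_ne_zero) (pow_ne_zero _ (X_sub_C_ne_zero _)), natDegree_pow,
    natDegree_pow, natDegree_X, natDegree_X_sub_C] at h2
  have := (h _ (leadingCoeff_ne_zero.mpr hG)).2
  omega

end uni

open MvPolynomial

/-- exponent vector -/
noncomputable def ex (a b c : ℕ) : Fin 3 →₀ ℕ :=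
  Finsupp.single 0 a + Finsupp.single 1 b + Finsupp.single 2 c

theorem ex_eq {a b c : ℕ} {m : Fin 3 →₀ ℕ} : ex a b c = m ↔ a = m 0 ∧ b = m 1 ∧ c = m 2 := by
  constructor
  · rintro rfl; simp [ex]
  · rintro ⟨rfl, rfl, rfl⟩
    ext i
    fin_cases i <;> simp [ex]

theorem monomial_ex {R : Type} [CommRing R] (a b c : ℕ) (r : R) :
    monomial (ex a b c) r = C r * X 0 ^ a * X 1 ^ b * X 2 ^ c := by
  simp [ex, X_pow_eq_monomial, C_mul_monomial, monomial_mul]

/-- a monomial in the toric coordinates, on the model -/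
noncomputable def tm3 (ε d u t : ℕ) : CoordRing (Fin 3) :=
  X 0 ^ d * (1 + X 0 * X 1) ^ u * (1 + X 0 ^ ε * X 2) ^ t

theorem tm3_eq (ε d u t : ℕ) : tm3 ε d u t = ∑ i ∈ range (u + 1), ∑ j ∈ range (t + 1),
    monomial (ex (d + i + ε * j) i j) ((u.choose i : ℂ) * t.choose j) := by
  rw [tm3, add_comm 1, add_comm 1, add_pow, add_pow, mul_assoc, sum_mul_sum, mul_sum]
  refine sum_congr rfl fun i _ => ?_
  rw [mul_sum]
  refine sum_congr rfl fun j _ => ?_
  rw [monomial_ex]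
  simp only [map_mul, map_natCast]
  ring

theorem coeff_tm3 (ε d u t : ℕ) (m : Fin 3 →₀ ℕ) : coeff m (tm3 ε d u t) =
    if d + m 1 + ε * m 2 = m 0 then (u.choose (m 1) : ℂ) * t.choose (m 2) else 0 := by
  simp only [tm3_eq, coeff_sum, coeff_monomial, ex_eq]
  rw [sum_eq_single (m 1), sum_eq_single (m 2)]
  · simp
  · intro j _ hj; simp [hj]
  · intro h
    simp [Nat.choose_eq_zero_of_lt (show t < m 2 by simpa using h)]
  · intro i _ hi; simp [hi]
  · intro h
    simp [Nat.choose_eq_zero_of_lt (show u < m 1 by simpa using h)]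

/-- the pull-back of functions of three variables -/
noncomputable def Th3 (ε : ℕ) : CoordRing (Fin 3) →ₐ[ℂ] CoordRing (Fin 3) :=
  aeval ![tm3 ε 7 1 2, tm3 ε 15 2 4, tm3 ε 26 4 7]

/-- weighted degree -/
def eD (m : Fin 3 →₀ ℕ) : ℕ := 7 * m 0 + 15 * m 1 + 26 * m 2
/-- exponent of `U` -/
def eU (m : Fin 3 →₀ ℕ) : ℕ := m 0 + 2 * m 1 + 4 * m 2
/-- exponent of `T` -/
def eT (m : Fin 3 →₀ ℕ) : ℕ := 2 * m 0 + 4 * m 1 + 7 * m 2

theorem Th3_monomial (ε : ℕ) (m : Fin 3 →₀ ℕ) (c : ℂ) :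
    Th3 ε (monomial m c) = C c * tm3 ε (eD m) (eU m) (eT m) := by
  rw [Th3, aeval_monomial, Finsupp.prod_fintype _ _ (by simp), Fin.prod_univ_three]
  simp only [tm3, eD, eU, eT, Matrix.cons_val_zero, Matrix.cons_val_one, Matrix.cons_val,
    algebraMap_eq]
  generalize (1 + X 0 * X 1 : CoordRing (Fin 3)) = p
  generalize (1 + X 0 ^ ε * X 2 : CoordRing (Fin 3)) = q
  ring

theorem coeff_Th3 (ε : ℕ) (g : CoordRing (Fin 3)) (n : Fin 3 →₀ ℕ) : coeff n (Th3 ε g) =
    ∑ m ∈ g.support, coeff m g * if eD m + n 1 + ε * n 2 = n 0 then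
      ((eU m).choose (n 1) : ℂ) * (eT m).choose (n 2) else 0 := by
  conv_lhs => rw [g.as_sum, map_sum, coeff_sum]
  simp only [Th3_monomial, coeff_C_mul, coeff_tm3]

/-- the coefficient of `π^d (U-1)^i` as a polynomial in `T` -/
noncomputable def GG (g : CoordRing (Fin 3)) (d i : ℕ) : Polynomial ℂ :=
  ∑ m ∈ g.support, if eD m = d then
    Polynomial.monomial (eT m) (coeff m g * (eU m).choose i) else 0

theorem taylor_GG (g : CoordRing (Fin 3)) (d i j : ℕ) :
    (Polynomial.taylor 1 (GG g d i)).coeff j = ∑ m ∈ g.support, coeff m g * if eD m = d then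
      ((eU m).choose i : ℂ) * (eT m).choose j else 0 := by
  rw [GG, map_sum, Polynomial.finsetSum_coeff]
  refine sum_congr rfl fun m _ => ?_
  split_ifs
  · rw [Polynomial.taylor_monomial, Polynomial.coeff_C_mul, Polynomial.coeff_X_add_C_pow]
    simp [mul_assoc]
  · simp

theorem coeff_GG (g : CoordRing (Fin 3)) (d i t : ℕ) : (GG g d i).coeff t =
    ∑ m ∈ g.support, if eD m = d ∧ eT m = t then coeff m g * (eU m).choose i else 0 := by
  rw [GG, Polynomial.finsetSum_coeff]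
  refine sum_congr rfl fun m _ => ?_
  by_cases h : eD m = d <;> simp [h, Polynomial.coeff_monomial]

theorem GG_dvd {g : CoordRing (Fin 3)} {l : ℕ} (h : X 0 ^ l ∣ Th3 1 g) (d i : ℕ) :
    (Polynomial.X - Polynomial.C 1) ^ (l - d - i) ∣ GG g d i := by
  rw [Polynomial.X_sub_C_pow_dvd_iff, ← Polynomial.taylor_apply, Polynomial.X_pow_dvd_iff]
  intro j hj
  obtain ⟨h0, h1, h2⟩ := (ex_eq (a := d + i + j) (b := i) (c := j)).mp rfl
  have := (X_pow_dvd_iff 0 l _).mp h (ex (d + i + j) i j) (by omega)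
  rw [coeff_Th3, ← h0, ← h1, ← h2] at this
  rw [taylor_GG]
  refine Eq.trans (sum_congr rfl fun m _ => ?_) this
  congr 1
  exact if_congr (by omega) rfl rfl

theorem dvd_of_GG {g : CoordRing (Fin 3)} {N : ℕ} (h : ∀ d i, d + i < N → GG g d i = 0) :
    X 0 ^ N ∣ Th3 0 g := by
  refine (X_pow_dvd_iff 0 N _).mpr fun n hn => ?_
  rw [coeff_Th3]
  by_cases h1 : n 1 ≤ n 0
  · have := taylor_GG g (n 0 - n 1) (n 1) (n 2)
    rw [h _ _ (by omega), map_zero, Polynomial.coeff_zero] at this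
    refine Eq.trans (sum_congr rfl fun m _ => ?_) this.symm
    congr 1
    exact if_congr (by omega) rfl rfl
  · exact sum_eq_zero fun m _ => by rw [if_neg (by omega), mul_zero]

theorem GG_supp {g : CoordRing (Fin 3)} {d i t : ℕ} (h : (GG g d i).coeff t ≠ 0) :
    4 * d ≤ 15 * t ∧ 7 * t ≤ 2 * d := by
  rw [coeff_GG] at h
  obtain ⟨m, -, hm⟩ := exists_ne_zero_of_sum_ne_zero h
  have : eD m = d ∧ eT m = t := by by_contra hc; exact hm (if_neg hc)
  unfold eD eT at this
  omega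

theorem GG_eq_zero {g : CoordRing (Fin 3)} {l : ℕ} (hl : 1 ≤ l) (h : X 0 ^ l ∣ Th3 1 g) (d i : ℕ)
    (hdi : 107 * (d + i) ≤ 105 * l) : GG g d i = 0 := by
  by_contra h0
  have h1 := vanish_le h0 (t₀ := (4 * d + 14) / 15) (t₁ := 2 * d / 7)
    (fun t ht => by have := GG_supp ht; omega) (GG_dvd h d i)
  obtain rfl : i = 0 := by omega
  obtain ⟨n, rfl⟩ : ∃ n, d = 105 * n := by
    have e1 : 7 * (2 * d / 7) = 2 * d := by omega
    have e2 : 15 * ((4 * d + 14) / 15) = 4 * d := by omega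
    obtain ⟨p, rfl⟩ : 7 ∣ d := by omega
    obtain ⟨n, rfl⟩ : 15 ∣ p := by omega
    exact ⟨n, by omega⟩
  obtain rfl : l = 107 * n := by omega
  have h2 : (GG g (105 * n) 0).coeff (28 * n) ≠ 0 := by
    intro h2
    have := vanish_le h0 (t₀ := 28 * n + 1) (t₁ := 30 * n) (fun t ht => by
      have := GG_supp ht
      have : t ≠ 28 * n := by rintro rfl; exact ht h2
      omega) (GG_dvd h _ _)
    omega
  have h3 : ∀ t, (GG g (105 * n) 1 - Polynomial.C (15 * n : ℂ) * GG g (105 * n) 0).coeff t =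
      ∑ m ∈ g.support, if eD m = 105 * n ∧ eT m = t then coeff m g * (eU m - 15 * n) else 0 := by
    intro t
    rw [Polynomial.coeff_sub, Polynomial.coeff_C_mul, coeff_GG, coeff_GG, mul_sum,
      ← sum_sub_distrib]
    refine sum_congr rfl fun m _ => ?_
    split_ifs
    · simp; ring
    · simp
  have h4 : (GG g (105 * n) 1 - Polynomial.C (15 * n : ℂ) * GG g (105 * n) 0).coeff (28 * n) =
      -n * (GG g (105 * n) 0).coeff (28 * n) := by
    rw [h3, coeff_GG, mul_sum]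
    refine sum_congr rfl fun m _ => ?_
    split_ifs with hm
    · have : eU m = 14 * n := by unfold eD eT at hm; unfold eU; omega
      rw [this]; simp; ring
    · simp
  have h5 := vanish_le (G := GG g (105 * n) 1 - Polynomial.C (15 * n : ℂ) * GG g (105 * n) 0)
    (t₀ := 28 * n) (t₁ := 30 * n - 2) (r := 2 * n - 1) (fun h5 => by
      rw [h5, Polynomial.coeff_zero] at h4
      exact mul_ne_zero (by simp; omega) h2 h4.symm) (fun t ht => by
      rw [h3] at ht
      obtain ⟨m, -, hm⟩ := exists_ne_zero_of_sum_ne_zero ht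
      have h6 : eD m = 105 * n ∧ eT m = t := by by_contra hc; exact hm (if_neg hc)
      have h7 : eU m ≠ 15 * n := by
        intro h7
        rw [if_pos h6, h7] at hm
        simp at hm
      unfold eD eT at h6
      unfold eU at h7
      omega) (dvd_sub ((pow_dvd_pow _ (by omega)).trans (GG_dvd h _ _))
        (((pow_dvd_pow _ (by omega)).trans (GG_dvd h _ _)).mul_left _))
  omega

theorem claimA3 {g : CoordRing (Fin 3)} {l : ℕ} (hl : 1 ≤ l) (h : X 0 ^ l ∣ Th3 1 g) :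
    X 0 ^ ((105 * l + 107) / 107) ∣ Th3 0 g :=
  dvd_of_GG fun d i hdi => GG_eq_zero hl h d i (by omega)

end Pool.Agent.Lib.MP_bf30c2_ag
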