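import Mathlib
import Pool.Agent.Lib.MP_bf30c2_ag.Jac
import Pool.Agent.Lib.MP_20b407_ag.Tool

/-! The divisor `y_o = 0` on an affine space birational over `X` with coordinates `y`. -/

set_option linter.unusedSectionVars false

namespace Pool.Agent.Lib.MP_bf30c2_ag

open WithZero Pool.Agent.Lib.MP_20b407_ag Module MvPolynomial Finset

variable {σ : Type} [Fintype σ] [DecidableEq σ] {y : σ → FunField σ}

/-- the polynomials in `y` contain the coordinate ring -/
def Gens (y : σ → FunField σ) : Prop := ∀ a, ∃ P : CoordRing σ, aeval y P = al a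

theorem exists_frac (hy : Gens y) (g : FunField σ) :
    ∃ a b : CoordRing σ, aeval y b ≠ 0 ∧ g = aeval y a / aeval y b := by
  obtain ⟨a, b, hb, rfl⟩ := IsFractionRing.div_surjective (A := CoordRing σ) g
  obtain ⟨P, hP⟩ := hy a
  obtain ⟨Q, hQ⟩ := hy b
  exact ⟨P, Q, hQ ▸ al_ne (nonZeroDivisors.ne_zero hb), by rw [hP, hQ]⟩

theorem ev_inj (hy : Gens y) :
    Function.Injective (aeval y : CoordRing σ →ₐ[ℂ] FunField σ) := by
  have halg : Algebra.IsAlgebraic (Algebra.adjoin ℂ (Set.range y)) (FunField σ) := by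
    refine ⟨fun g => ?_⟩
    obtain ⟨a, b, -, rfl⟩ := exists_frac hy g
    have hm : ∀ a : CoordRing σ, aeval y a ∈ Algebra.adjoin ℂ (Set.range y) := fun a => by
      rw [Algebra.adjoin_range_eq_range_aeval]; exact ⟨a, rfl⟩
    rw [div_eq_mul_inv]
    exact (isAlgebraic_algebraMap (⟨_, hm a⟩ : Algebra.adjoin ℂ (Set.range y))).mul
      (isAlgebraic_algebraMap (⟨_, hm b⟩ : Algebra.adjoin ℂ (Set.range y))).inv
  exact (Algebra.IsAlgebraic.isTranscendenceBasis_of_le_trdeg_of_finite ℂ y (by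
    rw [trdeg_frac (CoordRing σ), MvPolynomial.trdeg_of_isDomain]; simp)).1

/-- the coordinate ring of the model -/
noncomputable abbrev mring (y : σ → FunField σ) : Subalgebra ℂ (FunField σ) :=
  (aeval y : CoordRing σ →ₐ[ℂ] FunField σ).range

/-- the model is an affine space -/
noncomputable def mequiv (hy : Gens y) : CoordRing σ ≃ₐ[ℂ] mring y :=
  AlgEquiv.ofInjective _ (ev_inj hy)

theorem mequiv_coe (hy : Gens y) (P : CoordRing σ) :
    (mequiv hy P : FunField σ) = aeval y P := rfl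

theorem mfrac (hy : Gens y) : IsFractionRing (mring y) (FunField σ) := by
  refine IsFractionRing.of_field _ _ fun g => ?_
  obtain ⟨a, b, -, rfl⟩ := exists_frac hy g
  exact ⟨mequiv hy a, mequiv hy b, rfl⟩

/-- the valuation of the divisor -/
noncomputable def mono (hy : Gens y) (o : σ) : Valuation (FunField σ) ℤᵐ⁰ :=
  haveI := mfrac hy
  embVal (FunField σ) (X_prime (i := o) (R := ℂ)) (mequiv hy).symm.toRingEquiv.toRingHom
    (mequiv hy).symm.injective

variable (hy : Gens y) (o : σ)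

theorem mono_ge (n : ℕ) (P : CoordRing σ) : VGe (mono hy o) n (aeval y P) ↔ X o ^ n ∣ P := by
  haveI := mfrac hy
  have := embVal_ge_iff (FunField σ) (X_prime (i := o) (R := ℂ))
    (mequiv hy).symm.toRingEquiv.toRingHom (mequiv hy).symm.injective (mequiv hy P) n
  exact this.trans (by simp)

theorem mono_ge_zero (P : CoordRing σ) : VGe (mono hy o) 0 (aeval y P) := by
  simpa using (mono_ge hy o 0 P).mpr (by simp)

theorem mono_alg (a : CoordRing σ) : VGe (mono hy o) 0 (al a) := by
  obtain ⟨P, hP⟩ := hy a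
  exact hP ▸ mono_ge_zero hy o P

theorem mono_y (j : σ) : VGe (mono hy o) 0 (y j) := by
  simpa using mono_ge_zero hy o (X j)

theorem mono_unit {P : CoordRing σ} (h : ¬ X o ∣ P) : VEq (mono hy o) 0 (aeval y P) :=
  VEq_of_not (mono_ge_zero hy o P) fun h' => h (by simpa using (mono_ge hy o 1 P).mp h')

theorem mono_unif : VEq (mono hy o) 1 (y o) := by
  refine VEq_of_not (by simpa using (mono_ge hy o 1 (X o)).mpr (by simp)) fun h => ?_
  have := (X_pow_dvd_iff o 2 _).mp ((mono_ge hy o 2 (X o)).mp (by simpa using h))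
    (Finsupp.single o 1) (by simp)
  simp at this

theorem mono_ring (g : FunField σ) : VGe (mono hy o) 0 g ↔
    ∃ a b : CoordRing σ, ¬ X o ∣ b ∧ g = aeval y a / aeval y b := by
  constructor
  · intro hg
    obtain ⟨a, b, hb, rfl⟩ := exists_frac hy g
    have hb0 : b ≠ 0 := by rintro rfl; simp at hb
    obtain ⟨c, hc, hn⟩ := (FiniteMultiplicity.of_not_isUnit
      (X_prime (i := o) (R := ℂ)).not_isUnit hb0).exists_eq_pow_mul_and_not_dvd
    generalize multiplicity (X o) b = n at hc
    have h1 : VEq (mono hy o) n (aeval y b) := by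
      rw [hc, map_mul, map_pow, aeval_X]
      exact (((mono_unif hy o).pow n).mul (mono_unit hy o hn)).congr (by simp)
    have h2 := hg.mul h1.ge
    rw [div_mul_cancel₀ _ hb, zero_add, mono_ge] at h2
    obtain ⟨d, rfl⟩ := h2
    refine ⟨d, c, hn, ?_⟩
    rw [hc, map_mul, map_mul, mul_div_mul_left]
    rw [map_pow, aeval_X]
    exact pow_ne_zero _ (mono_unif hy o).ne_zero
  · rintro ⟨a, b, hb, rfl⟩
    exact (mono_ge_zero hy o a).div (mono_unit hy o hb)

theorem mono_prime : IsPrimeDivisor (mono hy o) := by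
  have hp : Prime (mequiv hy (X o)) := (MulEquiv.prime_iff _).mpr X_prime
  have hmem : ∀ b, mequiv hy b ∈ Ideal.span {mequiv hy (X o)} ↔ X o ∣ b := fun b => by
    rw [Ideal.mem_span_singleton, map_dvd_iff]
  have : IsNoetherianRing (mring y) := isNoetherianRing_of_ringEquiv _ (mequiv hy).toRingEquiv
  refine ⟨fun γ => ?_, mring y, ?_, IsIntegrallyClosed.of_equiv (mequiv hy).toRingEquiv, hy,
    Ideal.span {mequiv hy (X o)}, (Ideal.span_singleton_prime hp.ne_zero).mpr hp,
    Ideal.height_span_singleton_eq_one_of_mem_nonZeroDivisors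
      (mem_nonZeroDivisors_of_ne_zero hp.ne_zero) hp.not_isUnit, fun g => ?_⟩
  · by_cases h : γ = 0
    · exact ⟨0, by simp [h]⟩
    · refine ⟨y o ^ (-log γ), ?_⟩
      have := VEq_zpow (mono_unif hy o) (-log γ)
      rw [VEq, mul_one, neg_neg, exp_log h] at this
      exact this
  · rw [mring, ← Algebra.adjoin_range_eq_range_aeval]
    exact Subalgebra.fg_def.mpr ⟨_, Set.finite_range y, rfl⟩
  · refine (mono_ring hy o g).trans ⟨?_, ?_⟩
    · rintro ⟨a, b, hb, rfl⟩
      exact ⟨mequiv hy a, mequiv hy b, by rwa [hmem], rfl⟩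
    · rintro ⟨a, b, hb, rfl⟩
      obtain ⟨a, rfl⟩ := (mequiv hy).surjective a
      obtain ⟨b, rfl⟩ := (mequiv hy).surjective b
      exact ⟨a, b, by rwa [hmem] at hb, rfl⟩

theorem det_comb (v : σ → Ω[FunField σ⁄ℂ]) (c : Matrix σ σ (FunField σ)) :
    (bs σ).det (fun i => ∑ j, c i j • v j) = c.det * (bs σ).det v := by
  rw [Module.Basis.det_apply, Module.Basis.det_apply, ← Matrix.det_transpose c, mul_comm,
    ← Matrix.det_mul]
  congr 1
  ext i j
  simp [Basis.toMatrix_apply, Matrix.mul_apply, mul_comm]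

theorem mono_good {k : ℤ} (hk : VEq (mono hy o) (-k) (jacobian y)) : Good (mono hy o) k := by
  refine ⟨mono_alg hy o, ⟨_, mono_unif hy o⟩, fun g hg => ?_⟩
  have h : ∀ i, ∃ c : σ → FunField σ, (∀ j, VGe (mono hy o) 0 (c j)) ∧
      dK (g i) = ∑ j, c j • dK (y j) := by
    intro i
    obtain ⟨a, b, hb, h⟩ := (mono_ring hy o _).mp (hg i)
    refine ⟨fun j => (aeval y b)⁻¹ ^ 2 * (aeval y b * aeval y (pderiv j a) -
      aeval y a * aeval y (pderiv j b)), fun j => ?_, ?_⟩
    · exact ((mono_unit hy o hb).inv.pow 2).ge.mul'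
        (((mono_ge_zero hy o _).mul (mono_ge_zero hy o _)).sub
          ((mono_ge_zero hy o _).mul (mono_ge_zero hy o _))) (by simp)
    · rw [h, Derivation.leibniz_div, dK_aeval, dK_aeval]
      simp only [smul_sum, ← sum_sub_distrib, mul_smul, sub_smul]
  choose c hc h using h
  rw [jac_def]
  simp only [h]
  rw [show (fun i => ∑ j, c i j • dK (y j)) = fun i => ∑ j, (Matrix.of c) i j • dK (y j) from rfl,
    det_comb]
  exact (VGe_det (M := Matrix.of c) hc).mul' hk.ge (by simp)

end Pool.Agent.Lib.MP_bf30c2_ag
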