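import Mathlib
import Pool.Agent.Lib.MP_bf30c2_ag.Mono

/-! The boundary divisor and the coordinates of the two-step blow-up. -/

set_option linter.unusedSectionVars false

namespace Pool.Agent.Lib.MP_bf30c2_ag

open WithZero Pool.Agent.Lib.MP_20b407_ag Module MvPolynomial Finset Sum

attribute [-simp] MvPolynomial.aeval_eq_bind₁ MvPolynomial.aeval_eq_eval

variable {ι : Type} [Fintype ι] [DecidableEq ι]

/-- the six polynomials -/
def gg {R : Type} [CommRing R] (x y z : R) : Fin 6 → R :=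
  ![x, y, z, z ^ 2 - x * y ^ 3, x ^ 8 - y ^ 2 * z, y ^ 5 - x ^ 7 * z]

theorem map_gg {R S F : Type} [CommRing R] [CommRing S] [FunLike F R S] [RingHomClass F R S]
    (φ : F) (x y z : R) (t : Fin 6) : φ (gg x y z t) = gg (φ x) (φ y) (φ z) t := by
  fin_cases t <;> simp [gg]

/-- the six exponents -/
def NN : Fin 6 → ℕ := ![7, 15, 26, 53, 57, 76]

theorem NN_ge (t : Fin 6) : 7 ≤ NN t := by fin_cases t <;> simp [NN]
theorem NN_le (t : Fin 6) : NN t ≤ 76 := by fin_cases t <;> simp [NN]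

/-- the six polynomials in the coordinate ring -/
noncomputable def gA (ι : Type) (t : Fin 6) : CoordRing (Fin 3 ⊕ ι) :=
  gg (X (inl 0)) (X (inl 1)) (X (inl 2)) t

/-- components of the boundary -/
noncomputable def hA (ty : ι → Fin 6) (i : ι) : CoordRing (Fin 3 ⊕ ι) :=
  X (inr i) ^ NN (ty i) - gA ι (ty i)

/-- coefficients of the boundary -/
noncomputable def cc (ty : ι → Fin 6) (i : ι) : ℝ := 1 / NN (ty i)

theorem gA_ne (t : Fin 6) : gA ι t ≠ 0 := by
  intro h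
  have := congrArg (eval fun _ => (2 : ℂ)) h
  rw [gA, map_gg] at this
  fin_cases t <;> norm_num [gg] at this

theorem hA_ne (ty : ι → Fin 6) (i : ι) : hA ty i ≠ 0 := by
  intro h
  have := congrArg (eval (Sum.elim (fun _ => (0 : ℂ)) fun _ => 1)) h
  rw [hA, map_sub, gA, map_gg] at this
  generalize ty i = t at this
  fin_cases t <;> simp [gg] at this

theorem pderiv_gA (i : ι) (t : Fin 6) : pderiv (inr i) (gA ι t) = 0 := by
  fin_cases t <;> simp [gA, gg]

/-- coordinate -/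
noncomputable abbrev xK (ι : Type) : FunField (Fin 3 ⊕ ι) := al (X (inl 0))
/-- coordinate -/
noncomputable abbrev yK (ι : Type) : FunField (Fin 3 ⊕ ι) := al (X (inl 1))
/-- coordinate -/
noncomputable abbrev zK (ι : Type) : FunField (Fin 3 ⊕ ι) := al (X (inl 2))
/-- coordinate -/
noncomputable abbrev wK (i : ι) : FunField (Fin 3 ⊕ ι) := al (X (inr i))

theorem xK_ne : xK ι ≠ 0 := al_ne (X_ne_zero _)
theorem yK_ne : yK ι ≠ 0 := al_ne (X_ne_zero _)
theorem zK_ne : zK ι ≠ 0 := al_ne (X_ne_zero _)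
theorem wK_ne (i : ι) : wK i ≠ 0 := al_ne (X_ne_zero _)

theorem al_gA (t : Fin 6) : al (gA ι t) = gg (xK ι) (yK ι) (zK ι) t := map_gg _ _ _ _ _

/-- toric coordinate -/
noncomputable def pK (ι : Type) : FunField (Fin 3 ⊕ ι) := yK ι / xK ι ^ 2
/-- toric coordinate -/
noncomputable def UK (ι : Type) : FunField (Fin 3 ⊕ ι) := zK ι ^ 2 / (xK ι * yK ι ^ 3)
/-- toric coordinate -/
noncomputable def TK (ι : Type) : FunField (Fin 3 ⊕ ι) := xK ι ^ 8 / (yK ι ^ 2 * zK ι)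

theorem pK_ne : pK ι ≠ 0 := div_ne_zero yK_ne (pow_ne_zero _ xK_ne)

theorem xK_eq : xK ι = pK ι ^ 7 * UK ι * TK ι ^ 2 := by
  have := xK_ne (ι := ι); have := yK_ne (ι := ι); have := zK_ne (ι := ι)
  rw [pK, UK, TK]; field_simp
theorem yK_eq : yK ι = pK ι ^ 15 * UK ι ^ 2 * TK ι ^ 4 := by
  have := xK_ne (ι := ι); have := yK_ne (ι := ι); have := zK_ne (ι := ι)
  rw [pK, UK, TK]; field_simp
theorem zK_eq : zK ι = pK ι ^ 26 * UK ι ^ 4 * TK ι ^ 7 := by
  have := xK_ne (ι := ι); have := yK_ne (ι := ι); have := zK_ne (ι := ι)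
  rw [pK, UK, TK]; field_simp

theorem UK_sub : UK ι - 1 = al (gA ι 3) / (xK ι * yK ι ^ 3) := by
  have := xK_ne (ι := ι); have := yK_ne (ι := ι)
  rw [al_gA, UK]; simp only [gg]; simp; field_simp
theorem TK_sub : TK ι - 1 = al (gA ι 4) / (yK ι ^ 2 * zK ι) := by
  have := zK_ne (ι := ι); have := yK_ne (ι := ι)
  rw [al_gA, TK]; simp only [gg]; simp; field_simp

theorem UK_sub_ne : UK ι - 1 ≠ 0 := by
  rw [UK_sub]; exact div_ne_zero (al_ne (gA_ne _)) (mul_ne_zero xK_ne (pow_ne_zero _ yK_ne))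
theorem TK_sub_ne : TK ι - 1 ≠ 0 := by
  rw [TK_sub]; exact div_ne_zero (al_ne (gA_ne _)) (mul_ne_zero (pow_ne_zero _ yK_ne) zK_ne)

/-- coordinates on the model -/
noncomputable def yv (ε : ℕ) (b : ι → ℕ) : Fin 3 ⊕ ι → FunField (Fin 3 ⊕ ι) :=
  Sum.elim ![pK ι, (UK ι - 1) / pK ι, (TK ι - 1) / pK ι ^ ε] fun i => wK i / pK ι ^ b i

/-- a monomial in the toric coordinates, on the model -/
noncomputable def tm (τ : Type) (ε d u t : ℕ) : CoordRing (Fin 3 ⊕ τ) :=
  X (inl 0) ^ d * (1 + X (inl 0) * X (inl 1)) ^ u * (1 + X (inl 0) ^ ε * X (inl 2)) ^ t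

/-- the pull-back of functions to the model -/
noncomputable def Th (ε : ℕ) (b : ι → ℕ) : CoordRing (Fin 3 ⊕ ι) →ₐ[ℂ] CoordRing (Fin 3 ⊕ ι) :=
  aeval (Sum.elim ![tm ι ε 7 1 2, tm ι ε 15 2 4, tm ι ε 26 4 7]
    fun i => X (inl 0) ^ b i * X (inr i))

theorem ev_tm (ε : ℕ) (b : ι → ℕ) (d u t : ℕ) :
    aeval (yv ε b) (tm ι ε d u t) = pK ι ^ d * UK ι ^ u * TK ι ^ t := by
  have := pK_ne (ι := ι)
  simp [tm, yv, mul_div_cancel₀, this]

theorem ev_Th (ε : ℕ) (b : ι → ℕ) (g : CoordRing (Fin 3 ⊕ ι)) :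
    aeval (yv ε b) (Th ε b g) = al g := by
  have : (aeval (yv ε b)).comp (Th ε b) = IsScalarTower.toAlgHom ℂ _ (FunField (Fin 3 ⊕ ι)) := by
    ext j
    rcases j with j | i
    · fin_cases j
      · simpa [Th, ev_tm] using xK_eq.symm
      · simpa [Th, ev_tm] using yK_eq.symm
      · simpa [Th, ev_tm] using zK_eq.symm
    · have := pK_ne (ι := ι)
      simp [Th, yv, mul_div_cancel₀, this]
  exact AlgHom.congr_fun this g

theorem gens_yv (ε : ℕ) (b : ι → ℕ) : Gens (yv ε b) := fun a => ⟨_, ev_Th ε b a⟩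

theorem jac_block (y : Fin 3 → FunField (Fin 3 ⊕ ι)) (Y s : ι → FunField (Fin 3 ⊕ ι))
    (hy : ∀ a i, pd (inr i) (y a) = 0) (hY : ∀ i j, pd (inr j) (Y i) = if i = j then s i else 0) :
    jacobian (Sum.elim y Y) = (Matrix.of fun a b => pd (inl b) (y a)).det * ∏ i, s i := by
  rw [jac_eq, ← Matrix.det_diagonal,
    ← Matrix.det_fromBlocks_zero₁₂ _ (Matrix.of fun i b => pd (inl b) (Y i))]
  congr 1
  ext (a | i) (b | j) <;> simp [hy, hY, Matrix.diagonal_apply]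

theorem pd_w (i j : ι) : pd (inr j) (wK i) = if i = j then 1 else 0 := by simp [pd_X]

theorem pd_h (ty : ι → Fin 6) (i j : ι) : pd (inr j) (al (hA ty i)) =
    if i = j then NN (ty i) * wK i ^ (NN (ty i) - 1) else 0 := by
  rw [pd_al, hA, map_sub, pderiv_gA, sub_zero, pderiv_pow, pderiv_X, Pi.single_apply]
  by_cases h : i = j <;> simp [h]

theorem det_xyz : (Matrix.of fun a b => pd (inl b) (![xK ι, yK ι, zK ι] a)).det = 1 := by
  simp [Matrix.det_fin_three, pd_X]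

theorem pd_xyz (a : Fin 3) (i : ι) : pd (inr i) (![xK ι, yK ι, zK ι] a) = 0 := by
  fin_cases a <;> simp [pd_X]

theorem pd_pK (j : Fin 3 ⊕ ι) :
    pd j (pK ι) = pK ι * (pd j (yK ι) / yK ι - 2 * pd j (xK ι) / xK ι) := by
  have := xK_ne (ι := ι); have := yK_ne (ι := ι)
  rw [pK, Derivation.leibniz_div, Derivation.leibniz_pow]
  simp only [smul_eq_mul, nsmul_eq_mul]
  field_simp
  ring

theorem pd_UK (j : Fin 3 ⊕ ι) : pd j (UK ι - 1) =
    UK ι * (2 * pd j (zK ι) / zK ι - pd j (xK ι) / xK ι - 3 * pd j (yK ι) / yK ι) := by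
  have := xK_ne (ι := ι); have := yK_ne (ι := ι); have := zK_ne (ι := ι)
  rw [map_sub, Derivation.map_one_eq_zero, UK, Derivation.leibniz_div, Derivation.leibniz,
    Derivation.leibniz_pow, Derivation.leibniz_pow]
  simp only [smul_eq_mul, nsmul_eq_mul]
  field_simp
  ring

theorem pd_TK (j : Fin 3 ⊕ ι) : pd j (TK ι - 1) =
    TK ι * (8 * pd j (xK ι) / xK ι - 2 * pd j (yK ι) / yK ι - pd j (zK ι) / zK ι) := by
  have := xK_ne (ι := ι); have := yK_ne (ι := ι); have := zK_ne (ι := ι)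
  rw [map_sub, Derivation.map_one_eq_zero, TK, Derivation.leibniz_div, Derivation.leibniz,
    Derivation.leibniz_pow, Derivation.leibniz_pow]
  simp only [smul_eq_mul, nsmul_eq_mul]
  field_simp
  ring

theorem det_pUT : (Matrix.of fun a b => pd (inl b) (![pK ι, UK ι - 1, TK ι - 1] a)).det =
    pK ι * UK ι * TK ι / (xK ι * yK ι * zK ι) := by
  have := xK_ne (ι := ι); have := yK_ne (ι := ι); have := zK_ne (ι := ι)
  rw [Matrix.det_fin_three]
  simp only [Matrix.of_apply, Matrix.cons_val_zero, Matrix.cons_val_one, Matrix.cons_val,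
    pd_pK, pd_UK, pd_TK, pd_X]
  simp
  field_simp
  ring

theorem pd_pUT (a : Fin 3) (i : ι) : pd (inr i) (![pK ι, UK ι - 1, TK ι - 1] a) = 0 := by
  fin_cases a
  · simp [pd_pK, pd_X]
  · simp [-map_sub, pd_UK, pd_X]
  · simp [-map_sub, pd_TK, pd_X]

theorem jac_yv (ε : ℕ) (b : ι → ℕ) : pK ι ^ (1 + ε + ∑ i, b i) * jacobian (yv ε b) =
    pK ι * UK ι * TK ι / (xK ι * yK ι * zK ι) := by
  have h := jac_scale (yv ε b) (inl 0) (Sum.elim ![0, 1, ε] b) rfl
  have h2 := jac_block (ι := ι) _ wK (fun _ => 1) pd_pUT pd_w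
  rw [det_pUT, prod_const_one, mul_one] at h2
  rw [← h2]
  have := pK_ne (ι := ι)
  convert h.symm using 2
  · simp [yv, Fin.sum_univ_three]
  · funext j
    rcases j with j | i
    · fin_cases j <;> simp [yv, mul_div_cancel₀, this]
    · simp [yv, mul_div_cancel₀, this]

end Pool.Agent.Lib.MP_bf30c2_ag
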