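import Mathlib
import Pool.Agent.Lib.MP_bf30c2_ag.Data

/-! Lower bounds for the log discrepancies. -/

set_option linter.unusedSectionVars false

namespace Pool.Agent.Lib.MP_bf30c2_ag

open WithZero Pool.Agent.Lib.MP_20b407_ag Module MvPolynomial Finset Sum

variable {ι : Type} [Fintype ι] [DecidableEq ι]

/-- log discrepancy with a given discrepancy -/
noncomputable def LD (ty : ι → Fin 6) (v : Valuation (FunField (Fin 3 ⊕ ι)) ℤᵐ⁰) (k : ℤ) : ℝ :=
  1 + k - ∑ i, cc ty i * (-log (v (al (hA ty i))) : ℤ)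

theorem LD_eq (ty : ι → Fin 6) (v : Valuation (FunField (Fin 3 ⊕ ι)) ℤᵐ⁰) :
    logDiscrepancy (cc ty) (hA ty) v = LD ty v (discrepancy v) := rfl

/-- contribution of one component -/
noncomputable def term (N : ℕ) (b η : ℤ) : ℝ :=
  ((if η ≤ N * b then b else η - (N - 1) * b : ℤ) : ℝ) - 1 / N * η

theorem term_mul {N : ℕ} (hN : 7 ≤ N) (b η : ℤ) :
    term N b η = ((if η ≤ N * b then N * b - η else (N - 1) * (η - N * b) : ℤ) : ℝ) / N := by
  have : (N : ℝ) ≠ 0 := by positivity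
  unfold term
  split_ifs <;> push_cast <;> field_simp <;> ring

theorem term_nonneg {N : ℕ} (hN : 7 ≤ N) (b η : ℤ) : 0 ≤ term N b η := by
  rw [term_mul hN]
  refine div_nonneg (Int.cast_nonneg ?_) (by positivity)
  split_ifs with h
  · omega
  · exact mul_nonneg (by omega) (by omega)

theorem term_ge {N : ℕ} (hN : 7 ≤ N) {b η : ℤ} (h : η < N * b) : 1 / N ≤ term N b η := by
  rw [term_mul hN, if_pos h.le]
  refine div_le_div_of_nonneg_right ?_ (by positivity)
  exact_mod_cast (by omega : (1 : ℤ) ≤ N * b - η)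

theorem term_eq_zero {N : ℕ} (hN : 7 ≤ N) {b η : ℤ} (h : term N b η = 0) : η = N * b := by
  rw [term_mul hN, div_eq_zero_iff] at h
  have h1 := Int.cast_eq_zero.mp (h.resolve_right (by positivity))
  split_ifs at h1 with h2
  · omega
  · rcases mul_eq_zero.mp h1 with h | h <;> omega

variable {ty : ι → Fin 6} {v : Valuation (FunField (Fin 3 ⊕ ι)) ℤᵐ⁰} {k : ℤ}

theorem main_bound (h : Good v k) {y : Fin 3 → FunField (Fin 3 ⊕ ι)} {a : Fin 3 → ℤ} {δ : ℤ}
    (hy : ∀ j, VEq v (a j) (y j)) (hw : ∀ j i, pd (inr i) (y j) = 0)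
    (hδ : VEq v δ (Matrix.of fun a b => pd (inl b) (y a)).det) {b η : ι → ℤ}
    (hb : ∀ i, VEq v (b i) (wK i)) (hη : ∀ i, VEq v (η i) (al (hA ty i))) :
    (∑ j, a j - δ : ℤ) + ∑ i, term (NN (ty i)) (b i) (η i) ≤ LD ty v k := by
  have h1 := h.log_bound
    (y := Sum.elim y fun i => if η i ≤ NN (ty i) * b i then wK i else al (hA ty i))
    (a := Sum.elim a fun i => if η i ≤ NN (ty i) * b i then b i else η i) (by
      rintro (j | i)
      · exact hy j
      · simp only [Sum.elim_inr]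
        split_ifs
        · exact hb i
        · exact hη i)
  rw [jac_block _ _ (fun i => if η i ≤ NN (ty i) * b i then 1 else
    NN (ty i) * wK i ^ (NN (ty i) - 1)) hw (fun i j => by
      split_ifs with h1 h2 h2 <;> simp [pd_w, pd_h, h2])] at h1
  have h2 := (hδ.mul (VEq.prod (s := univ)
    (n := fun i => if η i ≤ NN (ty i) * b i then 0 else (NN (ty i) - 1) * b i) fun i _ => ?_)).le h1
  · rw [Fintype.sum_sum_type] at h2
    simp only [Sum.elim_inl, Sum.elim_inr] at h2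
    have h3 : ∑ i, (if η i ≤ NN (ty i) * b i then b i else η i - (NN (ty i) - 1) * b i) =
        ∑ i, (if η i ≤ NN (ty i) * b i then b i else η i) -
          ∑ i, (if η i ≤ NN (ty i) * b i then 0 else (NN (ty i) - 1) * b i) := by
      rw [← sum_sub_distrib]
      refine sum_congr rfl fun i _ => ?_
      split_ifs <;> simp
    have h4 : ∑ j, a j - δ + ∑ i, (if η i ≤ NN (ty i) * b i then b i else
        η i - (NN (ty i) - 1) * b i) ≤ 1 + k := by omega
    have h5 := (Int.cast_le (R := ℝ)).mpr h4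
    simp only [LD, term, sum_sub_distrib, VEq_log (hη _), cc]
    rw [← Int.cast_sum]
    rw [Int.cast_add, Int.cast_add, Int.cast_one] at h5
    linarith
  · have := NN_ge (ty i)
    split_ifs
    · exact VEq.one
    · refine ((nat_eq h.alg (by omega)).mul ((hb i).pow _)).congr ?_
      rw [Nat.cast_sub (by omega)]
      simp

theorem exists_ords (ty : ι → Fin 6) (v : Valuation (FunField (Fin 3 ⊕ ι)) ℤᵐ⁰) :
    ∃ (a : Fin 3 → ℤ) (b η : ι → ℤ), (∀ j, VEq v (a j) (![xK ι, yK ι, zK ι] j)) ∧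
      (∀ i, VEq v (b i) (wK i)) ∧ ∀ i, VEq v (η i) (al (hA ty i)) := by
  choose a ha using fun j => exists_VEq (v := v) (a := ![xK ι, yK ι, zK ι] j)
    (by fin_cases j; exacts [xK_ne, yK_ne, zK_ne])
  choose b hb using fun i : ι => exists_VEq (v := v) (wK_ne i)
  choose η hη using fun i : ι => exists_VEq (v := v) (al_ne (hA_ne ty i))
  exact ⟨a, b, η, ha, hb, hη⟩

theorem LD_nonneg (h : Good v k) : 0 ≤ LD ty v k := by
  obtain ⟨a, b, η, ha, hb, hη⟩ := exists_ords ty v
  refine le_trans ?_ (main_bound h ha pd_xyz (δ := 0) (by rw [det_xyz]; exact VEq.one) hb hη)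
  refine add_nonneg (Int.cast_nonneg ?_) (sum_nonneg fun i _ => term_nonneg (NN_ge _) _ _)
  have h0 := (ha 0).le (h.alg _)
  have h1 := (ha 1).le (h.alg _)
  have h2 := (ha 2).le (h.alg _)
  rw [Fin.sum_univ_three]
  omega

theorem ord_cases {α β γ : ℤ} (hx : VEq v α (xK ι)) (hy : VEq v β (yK ι)) (hz : VEq v γ (zK ι))
    (hg : ∀ t, VGe v (NN t) (al (gA ι t))) (hs : α + β + γ ≤ 50) : α = 7 ∧ β = 15 ∧ γ = 26 := by
  simp only [al_gA] at hg
  have h0 : 7 ≤ α := hx.le (hg 0)
  have h1 : 15 ≤ β := hy.le (hg 1)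
  have h2 : 26 ≤ γ := hz.le (hg 2)
  have key : ∀ {m n N : ℤ} {p q : FunField (Fin 3 ⊕ ι)}, VEq v m p → VEq v n q →
      VGe v N (p - q) → m < N → n = m := by
    intro m n N p q hp hq hpq hm
    have : q = p + -(p - q) := by ring
    rw [this] at hq
    exact (hp.add_ge (hpq.neg.mono (by omega))).unique hq
  have h3 := key (hz.pow 2) (hx.mul (hy.pow 3)) (hg 3)
  have h4 := key (hx.pow 8) ((hy.pow 2).mul hz) (hg 4)
  have h5 := key (hy.pow 5) ((hx.pow 7).mul hz) (hg 5)
  simp only [NN] at h3 h4 h5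
  simp at h3 h4 h5
  omega

theorem lower (hM : ∀ t, 3800 ≤ (univ.filter fun i => ty i = t).card) (h : Good v k)
    (hc : ∀ j, VGe v 1 (al (X j))) :
    50 ≤ LD ty v k ∧ (LD ty v k = 50 → VEq v 7 (xK ι) ∧ ∃ b : ι → ℕ,
      ∀ (n : ℕ) (P : CoordRing (Fin 3 ⊕ ι)), VGe v n (aeval (yv 1 b) P) ↔ X (inl 0) ^ n ∣ P) := by
  suffices H : LD ty v k ≤ 50 → LD ty v k = 50 ∧ VEq v 7 (xK ι) ∧ ∃ b : ι → ℕ,
      ∀ (n : ℕ) (P : CoordRing (Fin 3 ⊕ ι)), VGe v n (aeval (yv 1 b) P) ↔ X (inl 0) ^ n ∣ P from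
    ⟨(le_total _ _).elim id fun h => (H h).1.ge, fun h => (H h.le).2⟩
  intro hL
  obtain ⟨a, b, η, ha, hb, hη⟩ := exists_ords ty v
  have hb1 : ∀ i, 1 ≤ b i := fun i => (hb i).le (hc _)
  have hT : ∀ i, 0 ≤ term (NN (ty i)) (b i) (η i) := fun i => term_nonneg (NN_ge _) _ _
  have hT' : 0 ≤ ∑ i, term (NN (ty i)) (b i) (η i) := sum_nonneg fun i _ => hT i
  have B1 := (main_bound h ha pd_xyz (δ := 0) (by rw [det_xyz]; exact VEq.one) hb hη).trans hL
  rw [Fin.sum_univ_three, sub_zero] at B1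
  have hx : VEq v (a 0) (xK ι) := ha 0
  have hy : VEq v (a 1) (yK ι) := ha 1
  have hz : VEq v (a 2) (zK ι) := ha 2
  have hg : ∀ t, VGe v (NN t) (al (gA ι t)) := by
    intro t
    by_contra hn
    obtain ⟨γ, hγ⟩ := exists_VEq (v := v) (al_ne (gA_ne (ι := ι) t))
    have hγN : γ < NN t := by
      by_contra h2
      exact hn (hγ.ge.mono (by omega))
    have hN := NN_ge t
    have h1 : ∀ i ∈ univ.filter fun i => ty i = t, (1 : ℝ) / 76 ≤ term (NN (ty i)) (b i) (η i) := by
      intro i hi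
      obtain rfl : ty i = t := by simpa using hi
      have h2 : (NN (ty i) : ℤ) ≤ NN (ty i) * b i := by nlinarith [hb1 i]
      have h3 : VEq v γ (al (hA ty i)) := by
        rw [hA, map_sub, sub_eq_neg_add, map_pow]
        exact hγ.neg.add_ge (((hb i).pow _).ge.mono (by omega))
      refine le_trans ?_ (term_ge hN (by rw [h3.unique (hη i)]; omega))
      exact one_div_le_one_div_of_le (by positivity) (by exact_mod_cast NN_le _)
    have h2 := card_nsmul_le_sum _ _ _ h1
    have h3 := sum_le_univ_sum_of_nonneg (s := univ.filter fun i => ty i = t) hT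
    have h4 : (3800 : ℝ) ≤ (univ.filter fun i => ty i = t).card := by exact_mod_cast hM t
    have h5 : (3 : ℤ) ≤ a 0 + a 1 + a 2 := by
      have := hx.le (hc _); have := hy.le (hc _); have := hz.le (hc _); omega
    have h6 := (Int.cast_le (R := ℝ)).mpr h5
    rw [nsmul_eq_mul] at h2
    rw [Int.cast_ofNat] at h6
    linarith
  obtain ⟨e0, e1, e2⟩ := ord_cases hx hy hz hg
    ((Int.cast_le (R := ℝ)).mp (by rw [Int.cast_ofNat]; linarith))
  rw [e0] at hx; rw [e1] at hy; rw [e2] at hz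
  have hp : VEq v 1 (pK ι) := (hy.div (hx.pow 2)).congr (by norm_num)
  have hU : VEq v 0 (UK ι) := ((hz.pow 2).div (hx.mul (hy.pow 3))).congr (by norm_num)
  have hTT : VEq v 0 (TK ι) := ((hx.pow 8).div ((hy.pow 2).mul hz)).congr (by norm_num)
  have hU1 : VGe v 1 (UK ι - 1) := by
    rw [UK_sub]; exact ((hg 3).div (hx.mul (hy.pow 3))).mono (by simp [NN])
  have hT1 : VGe v 1 (TK ι - 1) := by
    rw [TK_sub]; exact ((hg 4).div ((hy.pow 2).mul hz)).mono (by simp [NN])
  have hJ : VEq v (-47) (pK ι * UK ι * TK ι / (xK ι * yK ι * zK ι)) :=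
    (((hp.mul hU).mul hTT).div ((hx.mul hy).mul hz)).congr (by norm_num)
  obtain ⟨u, hu⟩ := exists_VEq (v := v) (UK_sub_ne (ι := ι))
  obtain ⟨t, ht⟩ := exists_VEq (v := v) (TK_sub_ne (ι := ι))
  have B2 := main_bound h (y := ![pK ι, UK ι - 1, TK ι - 1]) (a := ![1, u, t])
    (fun j => by fin_cases j; exacts [hp, hu, ht]) pd_pUT (by rw [det_pUT]; exact hJ) hb hη
  have h1 : (50 : ℤ) ≤ ∑ j, ![1, u, t] j - -47 := by
    have := hu.le hU1; have := ht.le hT1
    simp [Fin.sum_univ_three]; omega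
  have h2 := (Int.cast_le (R := ℝ)).mpr h1
  rw [Int.cast_ofNat] at h2
  have hL' : LD ty v k = 50 := by linarith
  have hT0 : ∀ i, η i = NN (ty i) * b i := fun i => term_eq_zero (NN_ge _)
    ((sum_eq_zero_iff_of_nonneg fun i _ => hT i).mp (by linarith) i (mem_univ _))
  refine ⟨hL', hx, fun i => (b i).toNat, h.indep hp ?_ ?_⟩
  · rintro (j | i)
    · fin_cases j
      · exact hp.ge.mono (by simp)
      · exact hU1.div hp
      · exact (hT1.div (hp.pow 1)).mono (by simp)
    · exact ((hb i).div (hp.pow _)).ge.mono (by have := hb1 i; simp; omega)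
  · have h3 : 1 + k - ∑ i, b i = 50 := by
      apply Int.cast_injective (α := ℝ)
      rw [Int.cast_ofNat, ← hL', LD]
      push_cast
      congr 1
      refine sum_congr rfl fun i _ => ?_
      have : (NN (ty i) : ℝ) ≠ 0 := by have := NN_ge (ty i); positivity
      rw [← Int.cast_neg, VEq_log (hη i), hT0, cc]
      push_cast
      field_simp
    have h4 := hJ.div (hp.pow (1 + 1 + ∑ i, (b i).toNat))
    rw [← jac_yv, mul_div_cancel_left₀ _ (pow_ne_zero _ pK_ne)] at h4
    refine h4.congr ?_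
    push_cast
    rw [sum_congr rfl fun i _ => Int.toNat_of_nonneg (a := b i) (by have := hb1 i; omega)]
    change _ - (1 + 1 + ∑ i, b i) * 1 = _
    omega

end Pool.Agent.Lib.MP_bf30c2_ag
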