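import Mathlib
import Pool.Agent.Lib.MP_bf30c2_ag.Lower

/-! The divisor which computes the minimal log discrepancy. -/

set_option linter.unusedSectionVars false

namespace Pool.Agent.Lib.MP_bf30c2_ag

open WithZero Pool.Agent.Lib.MP_20b407_ag Module MvPolynomial Finset Sum

theorem centred_iff {σ : Type} [Fintype σ] [DecidableEq σ] {v : Valuation (FunField σ) ℤᵐ⁰}
    (hA : ∀ a, VGe v 0 (al a)) : CentredAtOrigin v ↔ ∀ j, VGe v 1 (al (X j)) := by
  refine ⟨fun h j => lt_one_iff.mp ((h _).mpr (by simp)), fun h a => ?_⟩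
  have key : ∀ a : CoordRing σ, VGe v 1 (al a - algebraMap ℂ _ (constantCoeff a)) := by
    intro a
    induction a using MvPolynomial.induction_on with
    | C c => rw [al_C, constantCoeff_C, sub_self]; exact VGe.zero _
    | add p q hp hq => rw [map_add, map_add, map_add, add_sub_add_comm]; exact hp.add hq
    | mul_X p j _ => simpa using (hA p).mul (h j)
  rw [lt_one_iff]
  constructor
  · intro h1
    by_contra hc
    have := (const_eq hA hc).le (by simpa using h1.sub (key a))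
    omega
  · intro h1
    simpa [h1] using key a

variable {ι : Type} [Fintype ι] [DecidableEq ι]

/-- monomial valuations in the coordinates of the model -/
noncomputable def mv (ε : ℕ) (b : ι → ℕ) : Valuation (FunField (Fin 3 ⊕ ι)) ℤᵐ⁰ :=
  mono (gens_yv ε b) (inl 0)

theorem mv_p (ε : ℕ) (b : ι → ℕ) : VEq (mv ε b) 1 (pK ι) := mono_unif (gens_yv ε b) (inl 0)

theorem U1_of {v : Valuation (FunField (Fin 3 ⊕ ι)) ℤᵐ⁰} {ε : ℕ} {b : ι → ℕ}
    (hp : VEq v 1 (pK ι)) (h : ∀ j, VGe v 0 (yv ε b j)) :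
    VGe v 1 (UK ι - 1) ∧ VGe v ε (TK ι - 1) := by
  have h1 := hp.ge.mul (h (inl 1))
  have h2 := (hp.pow ε).ge.mul (h (inl 2))
  have := pK_ne (ι := ι)
  simp [yv, mul_div_cancel₀, this] at h1 h2
  exact ⟨h1, h2⟩

theorem mv_U1 (ε : ℕ) (b : ι → ℕ) : VGe (mv ε b) 1 (UK ι - 1) :=
  (U1_of (mv_p ε b) (mono_y _ _)).1

theorem mv_T1 (ε : ℕ) (b : ι → ℕ) : VGe (mv ε b) ε (TK ι - 1) :=
  (U1_of (mv_p ε b) (mono_y _ _)).2

theorem unit_of {v : Valuation (FunField (Fin 3 ⊕ ι)) ℤᵐ⁰} {g : FunField (Fin 3 ⊕ ι)}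
    (h : VGe v 1 (g - 1)) : VEq v 0 g := by
  simpa using VEq.one.add_ge h

/-- the divisor computing the minimal log discrepancy -/
noncomputable abbrev vE (ι : Type) [Fintype ι] [DecidableEq ι] :
    Valuation (FunField (Fin 3 ⊕ ι)) ℤᵐ⁰ := mv 1 fun _ => 1

theorem vE_x : VEq (vE ι) 7 (xK ι) := by
  rw [xK_eq]
  exact ((((mv_p _ _).pow 7).mul (unit_of (mv_U1 _ _))).mul
    ((unit_of (mv_T1 _ _)).pow 2)).congr (by norm_num)

theorem vE_y : VEq (vE ι) 15 (yK ι) := by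
  rw [yK_eq]
  exact ((((mv_p _ _).pow 15).mul ((unit_of (mv_U1 _ _)).pow 2)).mul
    ((unit_of (mv_T1 _ _)).pow 4)).congr (by norm_num)

theorem vE_z : VEq (vE ι) 26 (zK ι) := by
  rw [zK_eq]
  exact ((((mv_p _ _).pow 26).mul ((unit_of (mv_U1 _ _)).pow 4)).mul
    ((unit_of (mv_T1 _ _)).pow 7)).congr (by norm_num)

theorem vE_w (i : ι) : VGe (vE ι) 1 (wK i) := by
  have h := (mv_p 1 fun _ => 1).ge.mul (mono_y (gens_yv 1 fun _ => 1) (inl 0) (inr i))
  have := pK_ne (ι := ι)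
  simpa [yv, mul_div_cancel₀, this] using h

theorem vE_g (t : Fin 6) : VGe (vE ι) (NN t) (al (gA ι t)) := by
  have hx := xK_ne (ι := ι); have hy := yK_ne (ι := ι); have hz := zK_ne (ι := ι)
  have hU := mv_U1 (ι := ι) 1 fun _ => 1
  have hT := mv_T1 (ι := ι) 1 fun _ => 1
  fin_cases t
  · exact vE_x.ge
  · exact vE_y.ge
  · exact vE_z.ge
  · have := hU.mul (vE_x.mul (vE_y.pow 3)).ge
    rw [UK_sub, div_mul_cancel₀ _ (by positivity)] at this
    exact this
  · have := hT.mul ((vE_y.pow 2).mul vE_z).ge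
    rw [TK_sub, div_mul_cancel₀ _ (by positivity)] at this
    exact this
  · have := (vE_y.pow 5).ge.mul ((hU.mul (unit_of hT).ge).add hT).neg
    convert this using 1
    · rfl
    rw [al_gA, UK, TK]
    simp only [gg]
    simp
    field_simp
    ring

theorem vE_centre (j : Fin 3 ⊕ ι) : VGe (vE ι) 1 (al (X j)) := by
  rcases j with j | i
  · fin_cases j
    · exact vE_x.ge.mono (by norm_num)
    · exact vE_y.ge.mono (by norm_num)
    · exact vE_z.ge.mono (by norm_num)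
  · exact vE_w i

theorem vE_good : Good (vE ι) (49 + Fintype.card ι) := by
  refine mono_good _ _ ?_
  have hp := mv_p (ι := ι) 1 fun _ => 1
  have h4 := (((hp.mul (unit_of (mv_U1 _ _))).mul (unit_of (mv_T1 _ _))).div
    ((vE_x.mul vE_y).mul vE_z)).div (hp.pow (1 + 1 + ∑ _i : ι, 1))
  rw [← jac_yv 1 fun _ => 1, mul_div_cancel_left₀ _ (pow_ne_zero _ pK_ne)] at h4
  refine h4.congr ?_
  simp
  ring

theorem vE_le (ty : ι → Fin 6) : logDiscrepancy (cc ty) (hA ty) (vE ι) ≤ 50 := by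
  rw [LD_eq, LD]
  have h1 := (Int.cast_le (R := ℝ)).mpr (discrepancy_le (vE_good (ι := ι)))
  have h2 : ∀ i ∈ univ, (1 : ℝ) ≤ cc ty i * (-log (vE ι (al (hA ty i))) : ℤ) := by
    intro i _
    obtain ⟨η, hη⟩ := exists_VEq (v := vE ι) (al_ne (hA_ne ty i))
    have h3 : (NN (ty i) : ℤ) ≤ η := by
      refine hη.le ?_
      rw [hA, map_sub, map_pow]
      exact (((vE_w i).pow _).mono (by simp)).sub (vE_g _)
    have h4 : (0 : ℝ) < NN (ty i) := by have := NN_ge (ty i); positivity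
    rw [VEq_log hη, cc, one_div, inv_mul_eq_div, one_le_div h4]
    exact_mod_cast h3
  have h3 := card_nsmul_le_sum _ _ _ h2
  rw [nsmul_eq_mul, mul_one, card_univ] at h3
  push_cast at h1 h3 ⊢
  linarith

end Pool.Agent.Lib.MP_bf30c2_ag
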