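import Mathlib
import Pool.Agent.Lib.MP_bf30c2_ag.Model
import Pool.Agent.Lib.MP_bf30c2_ag.ClaimA

/-! Functions for which the ratio of the two valuations approaches its supremum. -/

set_option linter.unusedSectionVars false

namespace Pool.Agent.Lib.MP_bf30c2_ag

open WithZero Pool.Agent.Lib.MP_20b407_ag Finset Sum Polynomial

variable {ι : Type} [Fintype ι] [DecidableEq ι]

/-- `π^d H(T, U - 1)` is a regular function -/
def Real (ι : Type) (d : ℕ) (H : ℂ[X][X]) : Prop :=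
  ∃ g : CoordRing (Fin 3 ⊕ ι), al g = pK ι ^ d * H.aevalAeval (TK ι) (UK ι - 1)

theorem Real.add {d : ℕ} {H H' : ℂ[X][X]} (h : Real ι d H) (h' : Real ι d H') :
    Real ι d (H + H') := by
  obtain ⟨g, hg⟩ := h
  obtain ⟨g', hg'⟩ := h'
  exact ⟨g + g', by rw [map_add, map_add, hg, hg', mul_add]⟩

theorem Real.smul {d : ℕ} {H : ℂ[X][X]} (h : Real ι d H) (c : ℂ) : Real ι d (c • H) := by
  obtain ⟨g, hg⟩ := h
  exact ⟨MvPolynomial.C c * g, by rw [map_mul, al_C, hg, map_smul, Algebra.smul_def]; ring⟩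

theorem real_mono {d t : ℕ} (h1 : 4 * d + 1 ≤ 15 * t) (h2 : 7 * t + 3 ≤ 2 * d) :
    Real ι d ((1 + X) ^ ((t + 1) / 2) * C (X ^ t)) := by
  obtain ⟨i, j, k, e1, e2, e3⟩ : ∃ i j k : ℕ, d = 7 * i + 15 * j + 26 * k ∧
      (t + 1) / 2 = i + 2 * j + 4 * k ∧ t = 2 * i + 4 * j + 7 * k :=
    ⟨8 * t - 2 * d - (t + 1) / 2, d - 3 * ((t + 1) / 2) - 2 * t, 2 * ((t + 1) / 2) - t,
      by omega, by omega, by omega⟩
  refine ⟨MvPolynomial.X (inl 0) ^ i * MvPolynomial.X (inl 1) ^ j * MvPolynomial.X (inl 2) ^ k, ?_⟩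
  rw [e2]
  simp only [map_mul, map_pow, map_add, map_one, aevalAeval_Y, aevalAeval_X, add_sub_cancel]
  change xK ι ^ i * yK ι ^ j * zK ι ^ k = _
  rw [xK_eq, yK_eq, zK_eq, e1, e3]
  ring

theorem Real.xi {e : ℕ} {E : ℂ[X][X]} (h : Real ι e E) (j : ℕ) :
    Real ι (e + 52 * j) (X ^ j * (((1 + X) ^ 7 * C (X ^ 14)) ^ j * E)) := by
  obtain ⟨g, hg⟩ := h
  refine ⟨gA ι 3 ^ j * g, ?_⟩
  have h1 : al (gA ι 3) = (UK ι - 1) * (pK ι ^ 52 * UK ι ^ 7 * TK ι ^ 14) := by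
    have : xK ι * yK ι ^ 3 = pK ι ^ 52 * UK ι ^ 7 * TK ι ^ 14 := by rw [xK_eq, yK_eq]; ring
    rw [← this, UK_sub, div_mul_cancel₀ _ (mul_ne_zero xK_ne (pow_ne_zero _ yK_ne))]
  simp only [map_mul, map_pow, map_add, map_one, aevalAeval_Y, aevalAeval_X, add_sub_cancel, hg, h1]
  generalize UK ι - 1 = a
  ring

theorem real_poly {d t₀ k : ℕ} (h1 : 4 * d + 1 ≤ 15 * t₀) (h2 : 7 * (t₀ + k) + 3 ≤ 2 * d)
    {q : ℂ[X]} (hq : q.natDegree ≤ k) : ∃ E, Real ι d E ∧ E.coeff 0 = X ^ t₀ * q := by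
  let S : Submodule ℂ ℂ[X] :=
    { carrier := {p | ∃ E, Real ι d E ∧ E.coeff 0 = p}
      add_mem' := by
        rintro _ _ ⟨E, h, rfl⟩ ⟨E', h', rfl⟩
        exact ⟨_, h.add h', coeff_add _ _ _⟩
      zero_mem' := ⟨0, ⟨0, by simp⟩, rfl⟩
      smul_mem' := by
        rintro c _ ⟨E, h, rfl⟩
        exact ⟨_, h.smul c, coeff_smul _ _ _⟩ }
  change X ^ t₀ * q ∈ S
  rw [q.as_sum_range_C_mul_X_pow, mul_sum]
  refine sum_mem fun r hr => ?_
  have hr' : r ≤ k := (Nat.lt_succ_iff.mp (mem_range.mp hr)).trans hq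
  rw [mul_left_comm, ← pow_add, ← smul_eq_C_mul]
  exact S.smul_mem _ ⟨_, real_mono (t := t₀ + r) (by omega) (by omega), by simp [coeff_zero_eq_eval_zero]⟩

theorem exists_real (n : ℕ) (hn : 1 ≤ n) (r : ℕ) : ∃ H, Real ι (105 * n) H ∧
    H.coeff 0 = X ^ (28 * n + 1) * (X - C 1) ^ (2 * n - 2) ∧
    ∀ i ≤ r, (X - C 1) ^ (2 * n - 2 - i) ∣ H.coeff i := by
  induction r with
  | zero =>
    obtain ⟨E, h, h0⟩ := real_poly (ι := ι) (d := 105 * n) (t₀ := 28 * n + 1) (k := 2 * n - 2)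
      (by omega) (by omega) (q := (X - C 1) ^ (2 * n - 2))
      (by rw [natDegree_pow, natDegree_X_sub_C, mul_one])
    refine ⟨E, h, h0, fun i hi => ?_⟩
    obtain rfl : i = 0 := by omega
    rw [h0]
    exact dvd_mul_left _ _
  | succ r ih =>
    obtain ⟨H, h, h0, hd⟩ := ih
    by_cases hr : 2 * n - 2 ≤ r + 1
    · refine ⟨H, h, h0, fun i hi => ?_⟩
      by_cases hi' : i ≤ r
      · exact hd i hi'
      · rw [show 2 * n - 2 - i = 0 by omega, pow_zero]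
        exact one_dvd _
    obtain ⟨k, hk⟩ : ∃ k, 2 * n - 2 - (r + 1) = k + 1 := ⟨2 * n - 2 - (r + 1) - 1, by omega⟩
    obtain ⟨e, he⟩ : ∃ e, 105 * n = e + 52 * (r + 1) := ⟨105 * n - 52 * (r + 1), by omega⟩
    obtain ⟨a, b, hab⟩ := coprime_X.pow (m := 14 * (r + 1) + (4 * e + 15) / 15) (n := k + 1)
    have hM : ((X - C 1 : ℂ[X]) ^ (k + 1)).Monic := (monic_X_sub_C _).pow _
    have hdeg : ((X - C 1 : ℂ[X]) ^ (k + 1)).natDegree = k + 1 := by
      rw [natDegree_pow, natDegree_X_sub_C, mul_one]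
    obtain ⟨E, hE, hE0⟩ := real_poly (ι := ι) (d := e) (t₀ := (4 * e + 15) / 15) (k := k)
      (by omega) (by omega) (q := (-H.coeff (r + 1) * a) %ₘ (X - C 1) ^ (k + 1)) (by
        have := natDegree_modByMonic_lt (-H.coeff (r + 1) * a) hM (fun h1 => by
          rw [h1] at hdeg; simp at hdeg)
        omega)
    refine ⟨_, h.add (he ▸ hE.xi (r + 1)), ?_, fun i hi => ?_⟩
    · rw [coeff_add, coeff_X_pow_mul', if_neg (by omega), add_zero, h0]
    · rw [coeff_add, coeff_X_pow_mul']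
      by_cases hi' : i ≤ r
      · rw [if_neg (by omega), add_zero]
        exact hd i hi'
      · obtain rfl : i = r + 1 := by omega
        rw [if_pos le_rfl, Nat.sub_self, mul_coeff_zero, hE0, hk, modByMonic_eq_sub_mul_div,
          coeff_zero_eq_eval_zero]
        simp only [eval_pow, eval_mul, eval_add, eval_one, eval_X, eval_C, add_zero, one_pow,
          one_mul]
        rw [← mul_assoc, ← pow_mul, ← pow_add]
        generalize (X : ℂ[X]) ^ (14 * (r + 1) + (4 * e + 15) / 15) = P at hab ⊢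
        generalize -H.coeff (r + 1) * a /ₘ (X - C 1) ^ (k + 1) = Q
        exact ⟨H.coeff (r + 1) * b - P * Q, by linear_combination (-H.coeff (r + 1)) * hab⟩

variable {v : Valuation (FunField (Fin 3 ⊕ ι)) ℤᵐ⁰}

theorem aeval1_ge (hA : ∀ a, VGe v 0 (al a)) {g : FunField (Fin 3 ⊕ ι)} (hg : VGe v 0 g)
    (q : ℂ[X]) : VGe v 0 (aeval g q) := by
  rw [aeval_eq_sum_range]
  refine VGe.sum fun i _ => ?_
  rw [Algebra.smul_def]
  exact (const_ge hA _).mul' (hg.pow i) (by simp)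

theorem aeval2_ge (hA : ∀ a, VGe v 0 (al a)) {s z : FunField (Fin 3 ⊕ ι)} (ε : ℕ)
    (hs : VGe v ε (s - 1)) (hz : VGe v 1 z) {H : ℂ[X][X]} {μ : ℕ}
    (h : ∀ i ≤ μ, (X - C 1) ^ (μ - i) ∣ H.coeff i) : VGe v (ε * μ) (H.aevalAeval s z) ∨ 2 ≤ ε := by
  by_cases hε : 2 ≤ ε
  · exact Or.inr hε
  left
  have hs0 : VGe v 0 s := by simpa using (hs.mono (by simp)).add VEq.one.ge
  conv_rhs => rw [H.as_sum_range, map_sum]
  refine VGe.sum fun i _ => ?_
  rw [← C_mul_X_pow_eq_monomial, map_mul, map_pow, aevalAeval_C, aevalAeval_Y]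
  have hε' : (ε : ℤ) ≤ 1 := by omega
  by_cases hi : i ≤ μ
  · obtain ⟨q, hq⟩ := h i hi
    rw [hq, map_mul, map_pow, map_sub, aeval_X, aeval_C, map_one]
    refine ((hs.pow _).mul (aeval1_ge hA hs0 q)).mul' (hz.pow i) ?_
    rw [Nat.cast_sub hi]
    nlinarith
  · exact (aeval1_ge hA hs0 _).mul' (hz.pow i) (by
      have : (μ : ℤ) ≤ i := by omega
      nlinarith)

theorem claimB (hA : ∀ a, VGe v 0 (al a)) (hp : VEq v 1 (pK ι)) (hU : VGe v 1 (UK ι - 1))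
    (hT : VGe v 1 (TK ι - 1)) (b : ι → ℕ) (n : ℕ) (hn : 1 ≤ n) :
    ∃ g : CoordRing (Fin 3 ⊕ ι), VGe v (107 * n - 2) (al g) ∧ VEq (mv 0 b) (105 * n) (al g) := by
  obtain ⟨H, ⟨g, hg⟩, h0, hd⟩ := exists_real (ι := ι) n hn (2 * n - 2)
  refine ⟨g, ?_, ?_⟩
  · rw [hg]
    exact (hp.pow _).ge.mul' ((aeval2_ge hA 1 hT hU hd).resolve_right (by omega)) (by omega)
  · have hA' := mono_alg (gens_yv 0 b) (inl 0)
    have h1 : VEq (mv 0 b) 0 (TK ι - 1) := by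
      simpa [yv, mv] using mono_unit (gens_yv 0 b) (inl 0) (P := MvPolynomial.X (inl 2)) (by simp)
    have h2 : VEq (mv 0 b) 0 (TK ι) := by
      have := mono_unit (gens_yv 0 b) (inl 0) (P := 1 + MvPolynomial.X (inl 2)) (by
        rintro ⟨Q, hQ⟩
        simpa using congrArg MvPolynomial.constantCoeff hQ)
      rw [map_add] at this
      simpa [yv, mv] using this
    have h3 := (aeval2_ge hA' 0 h1.ge (mv_U1 0 b) (H := H.divX) (μ := 0)
      (fun i _ => by simp)).resolve_right (by omega)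
    rw [hg, ← H.divX_mul_X_add, h0, add_comm]
    simp only [map_mul, map_pow, map_add, map_sub, map_one, aevalAeval_Y, aevalAeval_X]
    refine (((mv_p 0 b).pow _).mul (VEq.add_ge ((h2.pow _).mul (h1.pow _))
      (h3.mul' (mv_U1 0 b) (by simp)))).congr (by simp)

end Pool.Agent.Lib.MP_bf30c2_ag
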