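import Mathlib
import Pool.Agent.Lib.MP_bf30c2_ag.Defs
import Pool.Agent.Lib.MP_20b407_ag.Val

/-! Centres of valuations on proper birational models; the obstruction to a contraction. -/

namespace Pool.Agent.Lib.MP_bf30c2_ag

open AlgebraicGeometry CategoryTheory WithZero Pool.Agent.Lib.MP_20b407_ag

variable {σ : Type} {Y : Scheme.{0}} [IsIntegral Y] {f : Y ⟶ Spec (CommRingCat.of (CoordRing σ))}
  {e : Y.functionField ≃+* FunField σ}

/-- the embedding of a local ring -/
noncomputable def locHom (e : Y.functionField ≃+* FunField σ) (y : Y) :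
    Y.presheaf.stalk y ⟶ CommRingCat.of (FunField σ) :=
  Y.presheaf.stalkSpecializes ((genericPoint_spec Y).specializes trivial) ≫
    CommRingCat.ofHom e.toRingHom

theorem mem_localRingAt {y : Y} {g : FunField σ} :
    g ∈ localRingAt Y e y ↔ ∃ s, (locHom e y).hom s = g := Iff.rfl

theorem spec_locHom (y : Y) : Spec.map (locHom e y) ≫ Y.fromSpecStalk y =
    Spec.map (CommRingCat.ofHom e.toRingHom) ≫ Y.fromSpecStalk (genericPoint Y) := by
  rw [locHom, Spec.map_comp, Category.assoc, Scheme.SpecMap_stalkSpecializes_fromSpecStalk]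
  rfl

theorem loc_sub {η y : Y} (h : η ⤳ y) : localRingAt Y e y ⊆ localRingAt Y e η := by
  rintro g ⟨s, rfl⟩
  refine ⟨(Y.presheaf.stalkSpecializes h).hom s, ?_⟩
  have : Y.presheaf.stalkSpecializes h ≫ locHom e η = locHom e y := by
    rw [locHom, locHom, ← Category.assoc, TopCat.Presheaf.stalkSpecializes_comp]
  exact congrArg (fun φ => φ.hom s) this

theorem loc_one (y : Y) : (1 : FunField σ) ∈ localRingAt Y e y :=
  mem_localRingAt.mpr ⟨1, map_one _⟩

theorem alg_mem
    (hf : Spec.map (CommRingCat.ofHom e.toRingHom) ≫ Y.fromSpecStalk (genericPoint Y) ≫ f =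
      Spec.map (CommRingCat.ofHom (algebraMap (CoordRing σ) (FunField σ))))
    (y : Y) (a : CoordRing σ) : algebraMap (CoordRing σ) (FunField σ) a ∈ localRingAt Y e y := by
  let ψ := Spec.preimage (Y.fromSpecStalk y ≫ f)
  have : ψ ≫ locHom e y = CommRingCat.ofHom (algebraMap (CoordRing σ) (FunField σ)) := by
    apply Spec.map_injective
    rw [Spec.map_comp, Spec.map_preimage, ← Category.assoc, spec_locHom, Category.assoc, hf]
  exact mem_localRingAt.mpr ⟨ψ.hom a, congrArg (fun φ => φ.hom a) this⟩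

theorem exists_centre [IsProper f]
    (hf : Spec.map (CommRingCat.ofHom e.toRingHom) ≫ Y.fromSpecStalk (genericPoint Y) ≫ f =
      Spec.map (CommRingCat.ofHom (algebraMap (CoordRing σ) (FunField σ))))
    (V : ValuationSubring (FunField σ)) (hV : ∀ a, algebraMap (CoordRing σ) (FunField σ) a ∈ V) :
    ∃ y : Y, localRingAt Y e y ⊆ V := by
  have hu : UniversallyClosed f := inferInstance
  rw [UniversallyClosed.eq_valuativeCriterion] at hu
  let j : CoordRing σ →+* V := (algebraMap (CoordRing σ) (FunField σ)).codRestrict V hV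
  have w : (Spec.map (CommRingCat.ofHom e.toRingHom) ≫ Y.fromSpecStalk (genericPoint Y)) ≫ f =
      Spec.map (CommRingCat.ofHom (algebraMap V (FunField σ))) ≫
        Spec.map (CommRingCat.ofHom j) := by
    rw [Category.assoc, hf, ← Spec.map_comp]
    rfl
  obtain ⟨l, hl₁, -⟩ := (hu.1 { R := V, K := FunField σ, commSq := ⟨w⟩, .. }).exists_lift
  dsimp only at l hl₁
  refine ⟨l (IsLocalRing.closedPoint V), ?_⟩
  have : Scheme.stalkClosedPointTo l ≫ CommRingCat.ofHom (algebraMap V (FunField σ)) =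
      locHom e (l (IsLocalRing.closedPoint V)) := by
    apply Spec.map_injective
    rw [← cancel_mono (Y.fromSpecStalk _), spec_locHom, Spec.map_comp, Category.assoc,
      Scheme.Spec_stalkClosedPointTo_fromSpecStalk, hl₁]
  intro g hg
  obtain ⟨s, rfl⟩ := mem_localRingAt.mp hg
  rw [← this]
  exact ((Scheme.stalkClosedPointTo l).hom s).2

theorem global_section [IsProper f]
    (hf : Spec.map (CommRingCat.ofHom e.toRingHom) ≫ Y.fromSpecStalk (genericPoint Y) ≫ f =
      Spec.map (CommRingCat.ofHom (algebraMap (CoordRing σ) (FunField σ))))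
    {s : FunField σ} (hs : ∀ y, s ∈ localRingAt Y e y) :
    ∃ a, algebraMap (CoordRing σ) (FunField σ) a = s := by
  have h1 : s ∈ (integralClosure
      (Subring.closure (Set.range (algebraMap (CoordRing σ) (FunField σ))))
        (FunField σ)).toSubring := by
    rw [← iInf_valuationSubring_superset, Subring.mem_iInf]
    rintro ⟨V, hV⟩
    obtain ⟨y, hy⟩ := exists_centre hf V fun a => hV ⟨a, rfl⟩
    exact hy (hs y)
  have h2 : Subring.closure (Set.range (algebraMap (CoordRing σ) (FunField σ))) =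
      (algebraMap (CoordRing σ) (FunField σ)).range := Subring.closure_eq (RingHom.range _)
  rw [h2] at h1
  have h3 : IsIntegral (CoordRing σ) s := by
    obtain ⟨p, hp, h0⟩ : IsIntegral (algebraMap (CoordRing σ) (FunField σ)).range s := h1
    obtain ⟨q, hq, -, hm⟩ := Polynomial.lifts_and_natDegree_eq_and_monic
      (f := (algebraMap (CoordRing σ) (FunField σ)).rangeRestrict)
      ((Polynomial.mem_lifts _).mpr
        (Polynomial.map_surjective _ (RingHom.rangeRestrict_surjective _) p)) hp
    refine ⟨q, hm, ?_⟩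
    rw [← hq, Polynomial.eval₂_map] at h0
    exact h0
  exact IsIntegrallyClosed.algebraMap_eq_of_integral h3

theorem not_contraction {v : Valuation (FunField σ) ℤᵐ⁰} (x : CoordRing σ) (c : ℕ) (hc : 1 ≤ c)
    (hx : VEq v c (algebraMap (CoordRing σ) (FunField σ) x))
    (H : ∀ W : ℕ, ∃ ν : Valuation (FunField σ) ℤᵐ⁰,
      (∀ a, VGe ν 0 (algebraMap (CoordRing σ) (FunField σ) a)) ∧
      ∀ l : ℕ, 1 ≤ l → l ≤ W → ∃ (N m : ℕ) (g : CoordRing σ), 1 ≤ N ∧
        (∀ s, VGe v l (algebraMap (CoordRing σ) (FunField σ) s) →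
          VGe ν N (algebraMap (CoordRing σ) (FunField σ) s)) ∧
        VGe v (l * m) (algebraMap (CoordRing σ) (FunField σ) g) ∧
        ¬ VGe ν (N * m) (algebraMap (CoordRing σ) (FunField σ) g)) :
    ¬ HasDivisorialContraction v := by
  rintro ⟨Y, _, f, e, η, l, _, hf, -, hη, -, hl, -, hA⟩
  choose k hk s hs U _ hU hUs using hA
  have : CompactSpace Y := QuasiCompact.compactSpace_of_compactSpace f
  obtain ⟨t, ht⟩ := isCompact_univ.elim_finite_subcover (fun y => (U y : Set Y))
    (fun y => (U y).isOpen) (fun y _ => Set.mem_iUnion.mpr ⟨y, hU y⟩)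
  obtain ⟨ν, hν, H⟩ := H (c * ((∑ y ∈ t, k y) * l))
  obtain ⟨y, hy⟩ := exists_centre hf ν.valuationSubring hν
  have hy' : ∀ g ∈ localRingAt Y e y, VGe ν 0 g := fun g hg => hy hg
  obtain ⟨z, hz, hyz⟩ : ∃ z ∈ t, y ∈ U z := by simpa using ht (Set.mem_univ y)
  have hI := (hUs z y).mp hyz
  obtain ⟨a, ha⟩ := global_section hf fun w => (hs z w).1
  have hkz : k z * l ≤ (∑ y ∈ t, k y) * l :=
    Nat.mul_le_mul_right _ (Finset.single_le_sum (f := k) (fun _ _ => Nat.zero_le _) hz)
  have hm0 : 1 ≤ k z * l := Nat.mul_pos (hk z) hl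
  have hsv : VGe v (k z * l : ℕ) (s z) := (hs z η).2 specializes_rfl
  generalize k z * l = m at *
  rw [← ha] at hI hsv
  by_cases hE : η ⤳ y
  · have hv : ∀ g ∈ localRingAt Y e y, VGe v 0 g := fun g hg => by
      have := loc_sub hE hg
      rw [hη] at this
      exact this
    have hdiv : ∀ g ∈ localRingAt Y e y, VGe v m g →
        ∃ u ∈ localRingAt Y e y, algebraMap (CoordRing σ) (FunField σ) a * u = g :=
      fun g hg h => by
        have : g ∈ idealAt Y e η v m y := ⟨hg, fun _ => h⟩
        rw [hI] at this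
        exact this
    have hxm := hx.pow m
    obtain ⟨u, hu, hau⟩ := hdiv _ (by rw [← map_pow]; exact alg_mem hf y _)
      (hxm.ge.mono (by nlinarith))
    have ha0 : algebraMap (CoordRing σ) (FunField σ) a ≠ 0 := by
      intro h
      rw [h, zero_mul] at hau
      exact hxm.ne_zero hau.symm
    obtain ⟨l', hl'⟩ := exists_VEq (v := v) ha0
    have h1 := hl'.le hsv
    have h2 := hxm.le (hau ▸ hl'.ge.mul (hv u hu))
    obtain ⟨n, rfl⟩ : ∃ n : ℕ, l' = n := ⟨l'.toNat, by omega⟩
    obtain ⟨N, r, g, -, hN, hg, hg'⟩ := H n (by omega) (by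
      have : n ≤ m * c := by exact_mod_cast (by simpa using h2 : (n : ℤ) ≤ m * c)
      nlinarith)
    have key : ∀ j : ℕ, ∀ g ∈ localRingAt Y e y, VGe v (n * j) g → VGe ν (N * j) g := by
      intro j
      induction j with
      | zero => intro g hg _; simpa using hy' g hg
      | succ j ih =>
        intro g hg h
        obtain ⟨u, hu, rfl⟩ := hdiv g hg (h.mono (by push_cast; nlinarith))
        rw [mul_comm (algebraMap _ _ a)] at h
        exact (hN a hl'.ge).mul' (ih u hu ((h.of_mul hl').mono (by push_cast; linarith)))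
          (by push_cast; linarith)
    exact hg' (key r _ (alg_mem hf y g) hg)
  · obtain ⟨N, r, g, hN1, hN, -⟩ := H m hm0 (by nlinarith)
    have : (1 : FunField σ) ∈ idealAt Y e η v m y := ⟨loc_one y, fun h => (hE h).elim⟩
    rw [hI] at this
    obtain ⟨u, hu, h1⟩ := this
    have h2 := (hN a hsv).mul (hy' u hu)
    dsimp only at h1
    rw [h1] at h2
    have := VEq.one.le h2
    omega

end Pool.Agent.Lib.MP_bf30c2_ag
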