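import Mathlib
import Pool.Agent.Lib.MP_bf30c2_ag.ClaimB
import Pool.Agent.Lib.MP_bf30c2_ag.Scheme

/-! No divisor computing the minimal log discrepancy can be extracted. -/

set_option linter.unusedSectionVars false

namespace Pool.Agent.Lib.MP_bf30c2_ag

open WithZero Pool.Agent.Lib.MP_20b407_ag Finset Sum MvPolynomial

attribute [-simp] MvPolynomial.aeval_eq_bind₁ MvPolynomial.aeval_eq_eval

variable {ι : Type} [Fintype ι] [DecidableEq ι]

/-- restriction to the three-dimensional coordinate subspace -/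
noncomputable def res (ι : Type) : CoordRing (Fin 3 ⊕ ι) →ₐ[ℂ] CoordRing (Fin 3) :=
  aeval (Sum.elim X fun _ => 0)

theorem res_Th (ε : ℕ) (b : ι → ℕ) (s : CoordRing (Fin 3 ⊕ ι)) :
    res ι (Th ε b s) = Th3 ε (res ι s) := by
  have : (res ι).comp (Th ε b) = (Th3 ε).comp (res ι) := by
    refine MvPolynomial.algHom_ext ?_
    rintro (j | i)
    · fin_cases j <;> simp [res, Th, Th3, tm, tm3]
    · simp [res, Th, Th3]
  exact AlgHom.congr_fun this s

theorem dvd_Th_sub (W : ℕ) (s : CoordRing (Fin 3 ⊕ ι)) :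
    X (inl 0) ^ W ∣ Th 0 (fun _ => W) s - rename inl (Th3 0 (res ι s)) := by
  refine dvd_sub_algHom (Th 0 fun _ => W)
    ((rename inl).comp ((Th3 0).comp (res ι))) _ ?_ s
  rintro (j | i)
  · fin_cases j <;> simp [res, Th, Th3, tm, tm3]
  · simp [res, Th, Th3]

variable {v : Valuation (FunField (Fin 3 ⊕ ι)) ℤᵐ⁰} {b : ι → ℕ}

theorem claimA (h : ∀ (n : ℕ) (P : CoordRing (Fin 3 ⊕ ι)),
      VGe v n (aeval (yv 1 b) P) ↔ X (inl 0) ^ n ∣ P)
    {l W : ℕ} (hl : 1 ≤ l) (hW : l ≤ W) {s : CoordRing (Fin 3 ⊕ ι)} (hs : VGe v l (al s)) :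
    VGe (mv 0 fun _ => W) ((105 * l + 107) / 107 : ℕ) (al s) := by
  rw [← ev_Th 1 b, h] at hs
  have h1 := map_dvd (res ι) hs
  rw [res_Th, map_pow, show res ι (X (inl 0)) = X 0 by simp [res]] at h1
  have h2 := map_dvd (rename (inl : Fin 3 → Fin 3 ⊕ ι)) (claimA3 hl h1)
  rw [map_pow, rename_X] at h2
  rw [← ev_Th 0 fun _ => W, mv, mono_ge]
  simpa using dvd_add ((pow_dvd_pow _ (by omega)).trans (dvd_Th_sub W s)) h2

theorem no_contraction (hA : ∀ a, VGe v 0 (al a)) (hx : VEq v 7 (xK ι))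
    (h : ∀ (n : ℕ) (P : CoordRing (Fin 3 ⊕ ι)),
      VGe v n (aeval (yv 1 b) P) ↔ X (inl 0) ^ n ∣ P) : ¬ HasDivisorialContraction v := by
  have hy : ∀ j, VGe v 0 (yv 1 b j) := fun j => by simpa using (h 0 (X j)).mpr (by simp)
  have hp : VEq v 1 (pK ι) := by
    refine VEq_of_not (by simpa [yv] using (h 1 (X (inl 0))).mpr (by simp)) fun h2 => ?_
    have := (X_pow_dvd_iff (inl 0) 2 _).mp ((h 2 (X (inl 0))).mp (by simpa [yv] using h2))
      (Finsupp.single (inl 0) 1) (by simp)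
    simp at this
  obtain ⟨hU, hT⟩ := U1_of hp hy
  refine not_contraction (X (inl 0)) 7 (by norm_num) hx fun W =>
    ⟨mv 0 fun _ => W, mono_alg _ _, fun l hl hW => ?_⟩
  obtain ⟨g, hg, hg'⟩ := claimB hA hp hU hT (fun _ => W) (l * (2 * l + 3)) (by nlinarith)
  refine ⟨(105 * l + 107) / 107, 214 * l + 319, g, by omega, fun s hs => claimA h hl hW hs,
    hg.mono (by push_cast; nlinarith), fun h2 => ?_⟩
  have h3 := hg'.le h2
  have h4 : 105 * l + 1 ≤ 107 * ((105 * l + 107) / 107) := by omega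
  generalize (105 * l + 107) / 107 = N at h3 h4
  push_cast at h3
  nlinarith

end Pool.Agent.Lib.MP_bf30c2_ag
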